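import Mathlib

/-!
Algebra for the contact lines: extension of the identity on a line, and the surjectivity of the
linear map that is the derivative of the conditions at the special form.
-/

set_option autoImplicit false

namespace Pool.Agent.Helper568.LL

open MvPolynomial

theorem eval_scale {Ω : Type} [CommRing Ω] {M n : ℕ} {F : MvPolynomial (Fin M) Ω}
    (hF : F.IsHomogeneous n) (c : Ω) (x : Fin M → Ω) :
    eval (fun m => c * x m) F = c ^ n * eval x F := by
  rw [eval_eq', eval_eq', Finset.mul_sum]
  refine Finset.sum_congr rfl fun d hd => ?_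
  have h1 : ∑ i, d i = n := by
    have h2 := hF (mem_support_iff.1 hd)
    rw [Finsupp.weight_apply, Finsupp.sum_fintype _ _ (by simp)] at h2
    simpa using h2
  simp only [mul_pow]
  rw [Finset.prod_mul_distrib, Finset.prod_pow_eq_pow_sum, h1]
  ring

theorem ext_line {Ω : Type} [Field Ω] [CharZero Ω] {M u D : ℕ} {F : MvPolynomial (Fin M) Ω}
    (hF : F.IsHomogeneous D) {e : Fin u → ℕ} (he : ∑ l, e l = D) (p q : Fin M → Ω)
    (c : Fin u → Ω) (lam : Ω)
    (h : ∀ j : Fin (D + 1), eval (fun m => p m + (j : ℕ) * q m) F =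
      lam * ∏ l, (1 + (j : ℕ) * c l) ^ e l) (s t : Ω) :
    eval (fun m => s * p m + t * q m) F = lam * ∏ l, (1 * s + c l * t) ^ e l := by
  classical
  have hpoly : ∀ (f : Fin M → Polynomial Ω) (x : Ω),
      (aeval f F : Polynomial Ω).eval x = eval (fun m => (f m).eval x) F := by
    intro f x
    have h1 := MvPolynomial.comp_aeval_apply (f := f)
      (Polynomial.aeval x : Polynomial Ω →ₐ[Ω] Ω) F
    rw [Polynomial.coe_aeval_eq_eval] at h1
    rw [h1, MvPolynomial.aeval_eq_eval]
  -- the identity for `s = 1`
  have h1 : ∀ z : Ω, eval (fun m => p m + z * q m) F = lam * ∏ l, (1 + z * c l) ^ e l := by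
    set G : Polynomial Ω := aeval (fun m => Polynomial.C (p m) + Polynomial.X * Polynomial.C (q m)) F
      with hG
    set H : Polynomial Ω := Polynomial.C lam *
      ∏ l, (1 + Polynomial.X * Polynomial.C (c l)) ^ e l with hH
    have hGd : G.natDegree ≤ D := by
      have := MvPolynomial.aeval_natDegree_le F hF.totalDegree_le
        (fun m => Polynomial.C (p m) + Polynomial.X * Polynomial.C (q m)) (n := 1) (fun m => by
          refine (Polynomial.natDegree_add_le _ _).trans (max_le ?_ ?_)
          · rw [Polynomial.natDegree_C]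
            exact Nat.zero_le _
          · exact (Polynomial.natDegree_mul_C_le _ _).trans Polynomial.natDegree_X_le)
      rw [mul_one] at this
      exact this
    have hHd : H.natDegree ≤ D := by
      refine (Polynomial.natDegree_C_mul_le _ _).trans ?_
      refine (Polynomial.natDegree_prod_le _ _).trans ?_
      rw [← he]
      refine Finset.sum_le_sum fun l _ => ?_
      refine Polynomial.natDegree_pow_le.trans ?_
      have : (1 + Polynomial.X * Polynomial.C (c l) : Polynomial Ω).natDegree ≤ 1 := by
        refine (Polynomial.natDegree_add_le _ _).trans (max_le (by simp) ?_)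
        exact (Polynomial.natDegree_mul_C_le _ _).trans Polynomial.natDegree_X_le
      calc e l * _ ≤ e l * 1 := Nat.mul_le_mul_left _ this
        _ = e l := mul_one _
    have hGe : ∀ x, G.eval x = eval (fun m => p m + x * q m) F := by
      intro x
      rw [hG, hpoly]
      simp only [Polynomial.eval_add, Polynomial.eval_mul, Polynomial.eval_C, Polynomial.eval_X]
    have hHe : ∀ x, H.eval x = lam * ∏ l, (1 + x * c l) ^ e l := by
      intro x
      rw [hH]
      simp only [Polynomial.eval_add, Polynomial.eval_mul, Polynomial.eval_C, Polynomial.eval_X,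
        Polynomial.eval_prod, Polynomial.eval_pow, Polynomial.eval_one]
    have hGH : G - H = 0 := by
      refine Polynomial.eq_zero_of_natDegree_lt_card_of_eval_eq_zero (G - H)
        (f := fun j : Fin (D + 1) => ((j : ℕ) : Ω)) ?_ ?_ ?_
      · intro a b hab
        have hab' : ((a : ℕ) : Ω) = ((b : ℕ) : Ω) := hab
        exact Fin.ext (by exact_mod_cast hab')
      · intro j
        rw [Polynomial.eval_sub, hGe, hHe, h j, sub_self]
      · rw [Fintype.card_fin]
        exact Nat.lt_succ_of_le ((Polynomial.natDegree_sub_le _ _).trans (max_le hGd hHd))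
    intro z
    rw [← hGe, ← hHe, sub_eq_zero.1 hGH]
  have h2 : ∀ s t : Ω, s ≠ 0 →
      eval (fun m => s * p m + t * q m) F = lam * ∏ l, (s + c l * t) ^ e l := by
    intro s t hs
    have e1 : (fun m => s * p m + t * q m) = fun m => s * (p m + t / s * q m) := by
      funext m
      field_simp
    rw [e1, eval_scale hF, h1]
    have e2 : s ^ D = ∏ l, s ^ e l := by rw [Finset.prod_pow_eq_pow_sum, he]
    rw [e2, mul_left_comm, ← Finset.prod_mul_distrib]
    congr 1
    refine Finset.prod_congr rfl fun l _ => ?_
    rw [← mul_pow]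
    congr 1
    field_simp
  simp only [one_mul]
  by_cases hs : s = 0
  · subst hs
    set G : Polynomial Ω := aeval (fun m => Polynomial.X * Polynomial.C (p m) +
      Polynomial.C (t * q m)) F with hG
    set H : Polynomial Ω := Polynomial.C lam *
      ∏ l, (Polynomial.X + Polynomial.C (c l * t)) ^ e l with hH
    have hGe : ∀ x, G.eval x = eval (fun m => x * p m + t * q m) F := by
      intro x
      rw [hG, hpoly]
      simp only [Polynomial.eval_add, Polynomial.eval_mul, Polynomial.eval_C, Polynomial.eval_X]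
    have hHe : ∀ x, H.eval x = lam * ∏ l, (x + c l * t) ^ e l := by
      intro x
      rw [hH]
      simp only [Polynomial.eval_add, Polynomial.eval_mul, Polynomial.eval_C, Polynomial.eval_X,
        Polynomial.eval_prod, Polynomial.eval_pow]
    have hGH : G = H := by
      refine Polynomial.eq_of_infinite_eval_eq G H ?_
      refine Set.Infinite.mono (s := {x : Ω | x ≠ 0}) ?_ ?_
      · intro x hx
        change G.eval x = H.eval x
        rw [hGe, hHe, h2 x t hx]
      · exact Set.Finite.infinite_compl (Set.finite_singleton (0 : Ω))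
    rw [← hGe, ← hHe, hGH]
  · exact h2 s t hs

/-- **Surjectivity.** -/
theorem surj_poly {N u : ℕ} {e : Fin u → ℕ} (he : ∀ l, 1 ≤ e l) (hle : ∑ l, (e l - 1) ≤ 2 * N)
    {p : Polynomial ℂ} (hp : p.natDegree ≤ ∑ l, e l) :
    ∃ (a b : Fin N → ℂ) (c : Fin u → ℂ) (lam : ℂ), ∀ z : ℂ, p.eval z =
      (∑ j : Fin N, (if 2 * (j : ℕ) + 1 ≤ ∑ l, e l then (a j + z * b j) * z ^ (2 * (j : ℕ)) else 0)) -
      (lam * ∏ l : Fin u, (1 + z * ((l : ℕ) + 1)) ^ e l +
        ∑ l : Fin u, (∏ l' ∈ Finset.univ.erase l, (1 + z * ((l' : ℕ) + 1)) ^ e l') *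
          ((e l : ℂ) * (1 + z * ((l : ℕ) + 1)) ^ (e l - 1) * (z * c l))) := by
  classical
  -- the linear forms
  let lf : Fin u → Polynomial ℂ := fun l => 1 + Polynomial.X * Polynomial.C (((l : ℕ) : ℂ) + 1)
  have hlne : ∀ l : Fin u, (((l : ℕ) : ℂ) + 1) ≠ 0 := fun l => Nat.cast_add_one_ne_zero _
  have hld : ∀ l, (lf l).natDegree = 1 := by
    intro l
    have : lf l = Polynomial.C (((l : ℕ) : ℂ) + 1) * Polynomial.X + Polynomial.C 1 := by
      simp only [lf]
      rw [Polynomial.C_1]
      ring
    rw [this]
    exact Polynomial.natDegree_linear (hlne l)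
  have hl0 : ∀ l, lf l ≠ 0 := by
    intro l h
    have := hld l
    rw [h] at this
    simp at this
  have hle' : ∀ l (z : ℂ), (lf l).eval z = 1 + z * (((l : ℕ) : ℂ) + 1) := by
    intro l z
    simp [lf]
  set h : Polynomial ℂ := ∏ l, lf l ^ (e l - 1) with hh
  have hh0 : h ≠ 0 := Finset.prod_ne_zero_iff.2 fun l _ => pow_ne_zero _ (hl0 l)
  have hhd : h.natDegree = ∑ l, (e l - 1) := by
    rw [hh, Polynomial.natDegree_prod _ _ fun l _ => pow_ne_zero _ (hl0 l)]
    refine Finset.sum_congr rfl fun l _ => ?_
    rw [Polynomial.natDegree_pow, hld, mul_one]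
  set r := p % h with hr
  set g := p / h with hg
  have hpgr : p = r + h * g := (EuclideanDomain.mod_add_div p h).symm
  have hrd : ∀ n, ∑ l, (e l - 1) ≤ n → r.coeff n = 0 := by
    intro n hn
    apply Polynomial.coeff_eq_zero_of_degree_lt
    have h1 : r.degree < h.degree := EuclideanDomain.mod_lt p hh0
    refine lt_of_lt_of_le h1 ?_
    rw [Polynomial.degree_eq_natDegree hh0, hhd]
    exact_mod_cast hn
  have hsum : ∑ l, e l = ∑ l, (e l - 1) + u := by
    have : ∀ l ∈ (Finset.univ : Finset (Fin u)), e l = (e l - 1) + 1 := fun l _ => by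
      have := he l
      omega
    rw [Finset.sum_congr rfl this, Finset.sum_add_distrib]
    simp
  have hgd : g.natDegree ≤ u := by
    by_cases hg0 : g = 0
    · rw [hg0]
      simp
    have h1 : (h * g).natDegree = h.natDegree + g.natDegree := Polynomial.natDegree_mul hh0 hg0
    have h2 : h * g = p - r := by rw [hpgr]; ring
    have h3 : (p - r).natDegree ≤ ∑ l, e l := by
      refine (Polynomial.natDegree_sub_le _ _).trans (max_le hp ?_)
      rw [Polynomial.natDegree_le_iff_coeff_eq_zero]
      intro n hn
      exact hrd n (by omega)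
    rw [← h2, h1, hhd] at h3
    omega
  -- the part divisible by `h`
  set lam : ℂ := - g.eval 0 with hlam
  set g1 : Polynomial ℂ := (g - Polynomial.C (g.eval 0) * ∏ l, lf l).divX with hg1
  have hg1' : g = Polynomial.C (g.eval 0) * ∏ l, lf l + Polynomial.X * g1 := by
    have h1 := Polynomial.X_mul_divX_add (g - Polynomial.C (g.eval 0) * ∏ l, lf l)
    have h2 : (g - Polynomial.C (g.eval 0) * ∏ l, lf l).coeff 0 = 0 := by
      rw [Polynomial.coeff_zero_eq_eval_zero, Polynomial.eval_sub, Polynomial.eval_mul,
        Polynomial.eval_C, Polynomial.eval_prod]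
      have : ∀ l ∈ (Finset.univ : Finset (Fin u)), (lf l).eval 0 = 1 := fun l _ => by
        rw [hle']
        ring
      rw [Finset.prod_congr rfl this]
      simp
    rw [h2, Polynomial.C_0, add_zero, ← hg1] at h1
    rw [h1]
    ring
  have hg1d : g1.natDegree ≤ u - 1 := by
    rw [hg1, Polynomial.natDegree_divX_eq_natDegree_tsub_one]
    have h1 : (Polynomial.C (g.eval 0) * ∏ l, lf l).natDegree ≤ u := by
      refine (Polynomial.natDegree_C_mul_le _ _).trans ?_
      refine (Polynomial.natDegree_prod_le _ _).trans ?_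
      rw [Finset.sum_congr rfl fun l _ => hld l]
      simp
    have h2 := (Polynomial.natDegree_sub_le g (Polynomial.C (g.eval 0) * ∏ l, lf l)).trans
      (max_le hgd h1)
    omega
  -- Lagrange interpolation
  let node : Fin u → ℂ := fun l => -1 / (((l : ℕ) : ℂ) + 1)
  have hnode : Function.Injective node := by
    intro l l' hll
    simp only [node] at hll
    rw [div_eq_div_iff (hlne l) (hlne l')] at hll
    apply Fin.ext
    have : ((l' : ℕ) : ℂ) = (l : ℕ) := by linear_combination -hll
    exact_mod_cast this.symm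
  have hval : ∀ l l', (lf l).eval (node l') = 0 ↔ l = l' := by
    intro l l'
    rw [hle']
    constructor
    · intro h1
      apply hnode
      have : node l' * (((l : ℕ) : ℂ) + 1) = -1 := by linear_combination h1
      change -1 / (((l : ℕ) : ℂ) + 1) = node l'
      rw [div_eq_iff (hlne l), this]
    · rintro rfl
      simp only [node]
      rw [div_mul_cancel₀ _ (hlne l)]
      ring
  let den : Fin u → ℂ := fun l => (e l : ℂ) * ∏ l' ∈ Finset.univ.erase l, (lf l').eval (node l)
  have hden : ∀ l, den l ≠ 0 := by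
    intro l
    refine mul_ne_zero ?_ ?_
    · have := he l
      exact_mod_cast (by omega : e l ≠ 0)
    · rw [Finset.prod_ne_zero_iff]
      intro l' hl'
      rw [Ne, hval]
      exact Finset.ne_of_mem_erase hl'
  let c : Fin u → ℂ := fun l => - g1.eval (node l) / den l
  have hlag : g1 = - ∑ l, Polynomial.C ((e l : ℂ) * c l) * ∏ l' ∈ Finset.univ.erase l, lf l' := by
    rcases Nat.eq_zero_or_pos u with hu | hu
    · subst hu
      have h1 : g.natDegree = 0 := by omega
      have h2 : g = Polynomial.C (g.eval 0) := by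
        conv_lhs => rw [Polynomial.eq_C_of_natDegree_eq_zero h1]
        rw [Polynomial.coeff_zero_eq_eval_zero]
      have h3 : Polynomial.X * g1 = 0 := by
        have h4 := hg1'
        simp only [Finset.univ_eq_empty, Finset.prod_empty, mul_one] at h4
        rw [← h2] at h4
        linear_combination -h4
      have h5 : g1 = 0 := by
        rcases mul_eq_zero.1 h3 with h | h
        · exact absurd h Polynomial.X_ne_zero
        · exact h
      rw [h5]
      simp
    rw [eq_neg_iff_add_eq_zero]
    refine Polynomial.eq_zero_of_natDegree_lt_card_of_eval_eq_zero _ (f := node) hnode ?_ ?_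
    · intro l0
      rw [Polynomial.eval_add, Polynomial.eval_finsetSum, Finset.sum_eq_single l0]
      · rw [Polynomial.eval_mul, Polynomial.eval_C, Polynomial.eval_prod]
        have : (e l0 : ℂ) * c l0 * ∏ l' ∈ Finset.univ.erase l0, (lf l').eval (node l0) =
            c l0 * den l0 := by
          simp only [den]
          ring
        rw [this]
        simp only [c]
        rw [div_mul_cancel₀ _ (hden l0)]
        ring
      · intro l _ hl
        rw [Polynomial.eval_mul, Polynomial.eval_prod]
        rw [Finset.prod_eq_zero (i := l0), mul_zero]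
        · exact Finset.mem_erase.2 ⟨fun h => hl h.symm, Finset.mem_univ _⟩
        · rw [hval]
      · intro h
        exact absurd (Finset.mem_univ _) h
    · rw [Fintype.card_fin]
      refine lt_of_le_of_lt (Polynomial.natDegree_add_le _ _) (max_lt (by omega) ?_)
      refine lt_of_le_of_lt (Polynomial.natDegree_sum_le_of_forall_le (n := u - 1) _ _ ?_) (by omega)
      intro l _
      refine (Polynomial.natDegree_C_mul_le _ _).trans ?_
      refine (Polynomial.natDegree_prod_le _ _).trans ?_
      rw [Finset.sum_congr rfl fun l _ => hld l]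
      simp
  refine ⟨fun j => r.coeff (2 * (j : ℕ)), fun j => r.coeff (2 * (j : ℕ) + 1), c, lam, fun z => ?_⟩
  conv_lhs => rw [hpgr]
  rw [Polynomial.eval_add, sub_eq_add_neg]
  congr 1
  · -- the remainder
    have hrN : r.natDegree < 2 * N ∨ r = 0 := by
      by_cases h1 : r = 0
      · exact Or.inr h1
      · left
        by_contra h2
        push Not at h2
        exact Polynomial.leadingCoeff_ne_zero.2 h1 (hrd _ (hle.trans h2))
    have hev : r.eval z = ∑ n ∈ Finset.range (2 * N), r.coeff n * z ^ n := by
      rcases hrN with h1 | h1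
      · exact Polynomial.eval_eq_sum_range' h1 z
      · rw [h1]
        simp
    rw [hev]
    have hpair : ∀ M : ℕ, ∑ n ∈ Finset.range (2 * M), r.coeff n * z ^ n =
        ∑ j ∈ Finset.range M, (r.coeff (2 * j) + z * r.coeff (2 * j + 1)) * z ^ (2 * j) := by
      intro M
      induction M with
      | zero => simp
      | succ M ih =>
        rw [Finset.sum_range_succ, ← ih, show 2 * (M + 1) = 2 * M + 1 + 1 by ring,
          Finset.sum_range_succ, Finset.sum_range_succ]
        ring
    rw [hpair, ← Fin.sum_univ_eq_sum_range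
      (fun j => (r.coeff (2 * j) + z * r.coeff (2 * j + 1)) * z ^ (2 * j))]
    refine Finset.sum_congr rfl fun j _ => ?_
    split_ifs with hj
    · rfl
    · rw [hrd _ (by omega), hrd _ (by omega)]
      ring
  · rw [Polynomial.eval_mul]
    conv_lhs => rw [hg1', hlag]
    simp only [Polynomial.eval_add, Polynomial.eval_mul, Polynomial.eval_C, Polynomial.eval_X,
      Polynomial.eval_neg, Polynomial.eval_finsetSum, Polynomial.eval_prod]
    have hhe : h.eval z = ∏ l : Fin u, (1 + z * (((l : ℕ) : ℂ) + 1)) ^ (e l - 1) := by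
      rw [hh, Polynomial.eval_prod]
      refine Finset.prod_congr rfl fun l _ => ?_
      rw [Polynomial.eval_pow, hle']
    simp only [hle']
    rw [hhe]
    have e1 : ∏ l : Fin u, (1 + z * (((l : ℕ) : ℂ) + 1)) ^ e l =
        (∏ l : Fin u, (1 + z * (((l : ℕ) : ℂ) + 1)) ^ (e l - 1)) *
          ∏ l : Fin u, (1 + z * (((l : ℕ) : ℂ) + 1)) := by
      rw [← Finset.prod_mul_distrib]
      refine Finset.prod_congr rfl fun l _ => ?_
      rw [← pow_succ, Nat.sub_add_cancel (he l)]
    have e2 : ∀ l : Fin u, (∏ l' ∈ Finset.univ.erase l, (1 + z * (((l' : ℕ) : ℂ) + 1)) ^ e l') *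
        (1 + z * (((l : ℕ) : ℂ) + 1)) ^ (e l - 1) =
        (∏ l : Fin u, (1 + z * (((l : ℕ) : ℂ) + 1)) ^ (e l - 1)) *
          ∏ l' ∈ Finset.univ.erase l, (1 + z * (((l' : ℕ) : ℂ) + 1)) := by
      intro l
      rw [← Finset.mul_prod_erase Finset.univ
        (fun l : Fin u => (1 + z * (((l : ℕ) : ℂ) + 1)) ^ (e l - 1)) (Finset.mem_univ l)]
      rw [mul_assoc, ← Finset.prod_mul_distrib, mul_comm]
      congr 1
      refine Finset.prod_congr rfl fun l' _ => ?_
      rw [← pow_succ, Nat.sub_add_cancel (he l')]
    have e3 : ∑ l : Fin u, (∏ l' ∈ Finset.univ.erase l, (1 + z * (((l' : ℕ) : ℂ) + 1)) ^ e l') *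
          ((e l : ℂ) * (1 + z * (((l : ℕ) : ℂ) + 1)) ^ (e l - 1) * (z * c l)) =
        (∏ l : Fin u, (1 + z * (((l : ℕ) : ℂ) + 1)) ^ (e l - 1)) * (z *
          ∑ l : Fin u, (e l : ℂ) * c l * ∏ l' ∈ Finset.univ.erase l,
            (1 + z * (((l' : ℕ) : ℂ) + 1))) := by
      rw [Finset.mul_sum, Finset.mul_sum]
      refine Finset.sum_congr rfl fun l _ => ?_
      have := e2 l
      calc (∏ l' ∈ Finset.univ.erase l, (1 + z * (((l' : ℕ) : ℂ) + 1)) ^ e l') *
          ((e l : ℂ) * (1 + z * (((l : ℕ) : ℂ) + 1)) ^ (e l - 1) * (z * c l)) =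
          ((∏ l' ∈ Finset.univ.erase l, (1 + z * (((l' : ℕ) : ℂ) + 1)) ^ e l') *
            (1 + z * (((l : ℕ) : ℂ) + 1)) ^ (e l - 1)) * ((e l : ℂ) * (z * c l)) := by ring
        _ = _ := by
          rw [this]
          ring
    rw [e3, e1, hlam]
    ring

end Pool.Agent.Helper568.LL
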