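import Mathlib

/-!
Curves of genus at most one have infinitely many points over a finite extension: an elementary proof
by the duplication formula and a valuation `v` with `v 2 < 1`.
-/

set_option autoImplicit false

namespace Pool.Agent.Helper568.LL

/-- a valuation for which `2` is small -/
theorem exists_val (k : Type) [Field k] [CharZero k] :
    ∃ B : ValuationSubring k, B.valuation (2 : k) < 1 := by
  let A : Subring k := (Int.castRingHom k).range
  let two : A := ⟨2, ⟨2, by simp⟩⟩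
  obtain ⟨B, hAB, hI⟩ := Ideal.image_subset_nonunits_valuationSubring (K := k)
    (Ideal.span {two}) (by
      intro htop
      rw [Ideal.span_singleton_eq_top] at htop
      obtain ⟨y, hy⟩ := isUnit_iff_exists_inv.1 htop
      obtain ⟨z, hz⟩ := y.2
      have h1 : (2 : k) * (z : k) = 1 := by
        have := congrArg (Subtype.val) hy
        simp only [Subring.coe_mul, Subring.coe_one] at this
        rw [← hz] at this
        simpa [two] using this
      have h2 : (2 * z : ℤ) = 1 := by exact_mod_cast h1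
      omega)
  refine ⟨B, ?_⟩
  have : (2 : k) ∈ B.nonunits := hI ⟨two, Ideal.subset_span rfl, rfl⟩
  exact (ValuationSubring.mem_nonunits_iff B).1 this

section dup

variable {k : Type} [Field k] {Γ : Type} [LinearOrderedCommGroupWithZero Γ]
  (v : Valuation k Γ)

/-- duplication enlarges the first coordinate -/
theorem dup_step {A B C x y : k} (h2 : v 2 < 1) (h20 : (2 : k) ≠ 0) (hx1 : 1 < v x) (hA : v A < v x)
    (hB : v B < v x) (hC : v C < v x) (hxy : y ^ 2 = x ^ 3 + A * x ^ 2 + B * x + C) :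
    y ≠ 0 ∧ v x < v (((3 * x ^ 2 + 2 * A * x + B) / (2 * y)) ^ 2 - A - 2 * x) := by
  have hx0 : x ≠ 0 := by
    rintro rfl
    simp at hx1
  have hX : v x ≠ 0 := (Valuation.ne_zero_iff v).2 hx0
  have hXpos : 0 < v x := zero_lt_iff.2 hX
  have h2le : v 2 ≤ 1 := h2.le
  have hn : ∀ n : ℕ, v (n : k) ≤ 1 := fun n => by
    induction n with
    | zero => simp
    | succ m ih =>
      rw [Nat.cast_succ]
      exact (v.map_add _ _).trans (max_le ih (by rw [map_one]))
  have hlt : ∀ {i j : ℕ}, i < j → v x ^ i < v x ^ j := fun h => pow_lt_pow_right₀ hx1 h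
  -- the cubic
  have hcub : v (x ^ 3 + (A * x ^ 2 + B * x + C)) = v x ^ 3 := by
    rw [Valuation.map_add_eq_of_lt_left, map_pow]
    rw [map_pow]
    refine Valuation.map_add_lt v (Valuation.map_add_lt v ?_ ?_) ?_
    · rw [map_mul, map_pow]
      calc v A * v x ^ 2 < v x * v x ^ 2 := by
            exact mul_lt_mul_of_pos_right hA (pow_pos hXpos 2)
        _ = v x ^ 3 := (pow_succ' _ _).symm
    · rw [map_mul]
      calc v B * v x < v x * v x := mul_lt_mul_of_pos_right hB hXpos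
        _ = v x ^ 2 := (pow_two _).symm
        _ < v x ^ 3 := hlt (by norm_num)
    · calc v C < v x := hC
        _ = v x ^ 1 := (pow_one _).symm
        _ < v x ^ 3 := hlt (by norm_num)
  have hh : x ^ 3 + A * x ^ 2 + B * x + C ≠ 0 := by
    intro h0
    have : x ^ 3 + (A * x ^ 2 + B * x + C) = 0 := by rw [← h0]; ring
    rw [this, map_zero] at hcub
    exact pow_ne_zero 3 hX hcub.symm
  have hy : y ≠ 0 := by
    rintro rfl
    apply hh
    rw [← hxy]
    ring
  refine ⟨hy, ?_⟩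
  -- the numerator
  have hnum : v (x ^ 4 + (-(2 * B * x ^ 2) - 8 * C * x + B ^ 2 - 4 * A * C)) = v x ^ 4 := by
    have b1 : v (-(2 * B * x ^ 2)) < v x ^ 4 := by
      rw [Valuation.map_neg, map_mul, map_mul, map_pow]
      calc v 2 * v B * v x ^ 2 ≤ 1 * v B * v x ^ 2 := by gcongr
        _ = v B * v x ^ 2 := by rw [one_mul]
        _ < v x * v x ^ 2 := mul_lt_mul_of_pos_right hB (pow_pos hXpos 2)
        _ = v x ^ 3 := (pow_succ' _ _).symm
        _ < v x ^ 4 := hlt (by norm_num)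
    have b2 : v (8 * C * x) < v x ^ 4 := by
      rw [map_mul, map_mul]
      have h8 : v (8 : k) ≤ 1 := by exact_mod_cast hn 8
      calc v 8 * v C * v x ≤ 1 * v C * v x := by gcongr
        _ = v C * v x := by rw [one_mul]
        _ < v x * v x := mul_lt_mul_of_pos_right hC hXpos
        _ = v x ^ 2 := (pow_two _).symm
        _ < v x ^ 4 := hlt (by norm_num)
    have b3 : v (B ^ 2) < v x ^ 4 := by
      rw [map_pow]
      calc v B ^ 2 < v x ^ 2 := pow_lt_pow_left₀ hB zero_le (by norm_num)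
        _ < v x ^ 4 := hlt (by norm_num)
    have b4 : v (4 * A * C) < v x ^ 4 := by
      rw [map_mul, map_mul]
      have h4 : v (4 : k) ≤ 1 := by exact_mod_cast hn 4
      calc v 4 * v A * v C ≤ 1 * v A * v C := by gcongr
        _ = v A * v C := by rw [one_mul]
        _ ≤ v x * v C := by gcongr
        _ < v x * v x := mul_lt_mul_of_pos_left hC hXpos
        _ = v x ^ 2 := (pow_two _).symm
        _ < v x ^ 4 := hlt (by norm_num)
    rw [Valuation.map_add_eq_of_lt_left, map_pow]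
    rw [map_pow]
    have c1 := Valuation.map_sub_lt v b1 b2
    have c2 := Valuation.map_add_lt v c1 b3
    exact Valuation.map_sub_lt v c2 b4
  have key : ((3 * x ^ 2 + 2 * A * x + B) / (2 * y)) ^ 2 - A - 2 * x =
      (x ^ 4 + (-(2 * B * x ^ 2) - 8 * C * x + B ^ 2 - 4 * A * C)) /
        (2 * 2 * (x ^ 3 + (A * x ^ 2 + B * x + C))) := by
    have h3 : x ^ 3 + (A * x ^ 2 + B * x + C) ≠ 0 := by
      intro h0
      apply hh
      rw [← h0]
      ring
    have h4 : ((3 * x ^ 2 + 2 * A * x + B) / (2 * y)) ^ 2 =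
        (3 * x ^ 2 + 2 * A * x + B) ^ 2 / (2 * 2 * (x ^ 3 + (A * x ^ 2 + B * x + C))) := by
      rw [div_pow, mul_pow, hxy]
      congr 1
      ring
    rw [h4, eq_div_iff (mul_ne_zero (mul_ne_zero h20 h20) h3), sub_mul, sub_mul,
      div_mul_cancel₀ _ (mul_ne_zero (mul_ne_zero h20 h20) h3)]
    ring
  rw [key, map_div₀, hnum, map_mul, hcub, map_mul]
  have h2pos : 0 < v 2 := zero_lt_iff.2 ((Valuation.ne_zero_iff v).2 h20)
  have h5 : v 2 * v 2 < 1 := by
    calc v 2 * v 2 < 1 * 1 := mul_lt_mul'' h2 h2 zero_le zero_le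
      _ = 1 := one_mul 1
  rw [lt_div_iff₀ (mul_pos (mul_pos h2pos h2pos) (pow_pos hXpos 3))]
  calc v x * (v 2 * v 2 * v x ^ 3) = (v 2 * v 2) * v x ^ 4 := by
        rw [mul_left_comm, ← pow_succ']
    _ < 1 * v x ^ 4 := mul_lt_mul_of_pos_right h5 (pow_pos hXpos 4)
    _ = v x ^ 4 := one_mul _

/-- infinitely many points -/
theorem infinite_cubic (L : Subfield k) {A B C : k} (hAL : A ∈ L) (hBL : B ∈ L) (_hCL : C ∈ L)
    (h2 : v 2 < 1) (h20 : (2 : k) ≠ 0) {x y : k} (hx : x ∈ L) (hy : y ∈ L)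
    (hx1 : 1 < v x) (hA : v A < v x)
    (hB : v B < v x) (hC : v C < v x) (hxy : y ^ 2 = x ^ 3 + A * x ^ 2 + B * x + C) :
    {x : k | x ∈ L ∧ x ≠ 0 ∧ ∃ y ∈ L, y ^ 2 = x ^ 3 + A * x ^ 2 + B * x + C}.Infinite := by
  set S : Set k := {x : k | x ∈ L ∧ 1 < v x ∧ v A < v x ∧ v B < v x ∧ v C < v x ∧
    ∃ y ∈ L, y ^ 2 = x ^ 3 + A * x ^ 2 + B * x + C} with hS
  have hsub : S ⊆ {x : k | x ∈ L ∧ x ≠ 0 ∧ ∃ y ∈ L, y ^ 2 = x ^ 3 + A * x ^ 2 + B * x + C} := by
    rintro x ⟨h1, h3, -, -, -, h4⟩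
    refine ⟨h1, ?_, h4⟩
    rintro rfl
    simp at h3
  refine Set.Infinite.mono hsub ?_
  intro hfin
  obtain ⟨x, hxS, hmax⟩ := hfin.exists_maximalFor v S ⟨x, hx, hx1, hA, hB, hC, y, hy, hxy⟩
  obtain ⟨hx, hx1, hA, hB, hC, y, hy, hxy⟩ := hxS
  obtain ⟨hy0, hlt⟩ := dup_step v h2 h20 hx1 hA hB hC hxy
  have htwo : (2 : k) ∈ L := by
    have := natCast_mem L 2
    exact_mod_cast this
  have hthree : (3 : k) ∈ L := by
    have := natCast_mem L 3
    exact_mod_cast this
  set l : k := (3 * x ^ 2 + 2 * A * x + B) / (2 * y) with hl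
  set x' : k := l ^ 2 - A - 2 * x with hx'
  have hlL : l ∈ L := by
    refine L.div_mem (L.add_mem (L.add_mem (L.mul_mem hthree (L.pow_mem hx 2))
      (L.mul_mem (L.mul_mem htwo hAL) hx)) hBL) (L.mul_mem htwo hy)
  have hx'L : x' ∈ L := L.sub_mem (L.sub_mem (L.pow_mem hlL 2) hAL) (L.mul_mem htwo hx)
  have hle := hmax (j := x') ⟨hx'L, hx1.trans hlt, hA.trans hlt, hB.trans hlt, hC.trans hlt,
    -(y + l * (x' - x)), L.neg_mem (L.add_mem hy (L.mul_mem hlL (L.sub_mem hx'L hx))), by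
      have hly : l * (2 * y) = 3 * x ^ 2 + 2 * A * x + B := by
        rw [hl, div_mul_cancel₀ _ (mul_ne_zero h20 hy0)]
      have e : (-(y + l * (x' - x))) ^ 2 = y ^ 2 + (l * (2 * y)) * (x' - x) + l ^ 2 * (x' - x) ^ 2 := by
        ring
      have e2 : l ^ 2 = x' + A + 2 * x := by rw [hx']; ring
      rw [e, hly, hxy, e2]
      ring⟩ hlt.le
  exact absurd hle (not_le.2 hlt)

end dup

section quartic

variable {k : Type} [Field k] [CharZero k]

theorem quartic_deg (a b c : k) (L : Subfield k) (ha : a ∈ L) (hb : b ∈ L) (hc : c ∈ L) :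
    {z : k | z ∈ L ∧ ∃ w ∈ L, w ^ 2 = (z + a) * (z + b) * (z + c) ^ 2}.Infinite := by
  by_cases hab : a = b
  · subst hab
    refine Set.infinite_of_injective_forall_mem (f := fun n : ℕ => (n : k)) Nat.cast_injective
      fun n => ?_
    have hn : (n : k) ∈ L := natCast_mem L n
    exact ⟨hn, (n + a) * (n + c), L.mul_mem (L.add_mem hn ha) (L.add_mem hn hc), by ring⟩
  · have hd : a - b ≠ 0 := sub_ne_zero.2 hab
    have hne : ∀ n : ℕ, (1 - ((n : k) + 2) ^ 2) ≠ 0 := by
      intro n h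
      have h1 : ((n : k) + 2) ^ 2 = 1 := by linear_combination -h
      have h2 : (n + 2) ^ 2 = 1 := by exact_mod_cast h1
      have h3 : (n + 2) ^ 2 = n ^ 2 + 4 * n + 4 := by ring
      omega
    refine Set.infinite_of_injective_forall_mem
      (f := fun n : ℕ => (a - b) / (1 - ((n : k) + 2) ^ 2) - a) ?_ fun n => ?_
    · intro n m h
      simp only [sub_left_inj] at h
      rw [div_eq_div_iff (hne n) (hne m)] at h
      have h1 := mul_left_cancel₀ hd h
      have h2 : ((m : k) + 2) ^ 2 = ((n : k) + 2) ^ 2 := by linear_combination -h1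
      have h3 : (m + 2) ^ 2 = (n + 2) ^ 2 := by exact_mod_cast h2
      have h4 : m + 2 = n + 2 := Nat.pow_left_injective (n := 2) (by norm_num) h3
      omega
    · have hn : (n : k) ∈ L := natCast_mem L n
      have h2 : (2 : k) ∈ L := by exact_mod_cast natCast_mem L 2
      have hr : (n : k) + 2 ∈ L := L.add_mem hn h2
      have hq : (a - b) / (1 - ((n : k) + 2) ^ 2) ∈ L :=
        L.div_mem (L.sub_mem ha hb) (L.sub_mem L.one_mem (L.pow_mem hr 2))
      refine ⟨L.sub_mem hq ha, ((n : k) + 2) * ((a - b) / (1 - ((n : k) + 2) ^ 2)) *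
        ((a - b) / (1 - ((n : k) + 2) ^ 2) - a + c), L.mul_mem (L.mul_mem hr hq)
        (L.add_mem (L.sub_mem hq ha) hc), ?_⟩
      have e : (a - b) / (1 - ((n : k) + 2) ^ 2) - a + b =
          ((n : k) + 2) ^ 2 * ((a - b) / (1 - ((n : k) + 2) ^ 2)) := by
        have := hne n
        field_simp
        ring
      rw [e]
      ring

theorem infinite_quartic [IsAlgClosed k] (a b c d : k) : ∃ T : Finset k, ∀ L : Subfield k,
    (∀ x ∈ T, x ∈ L) →
    {z : k | z ∈ L ∧ ∃ w ∈ L, w ^ 2 = (z + a) * (z + b) * (z + c) * (z + d)}.Infinite := by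
  classical
  by_cases had : a = d
  · subst had
    refine ⟨{a, b, c}, fun L hL => ?_⟩
    refine (quartic_deg b c a L (hL _ (by simp)) (hL _ (by simp)) (hL _ (by simp))).mono ?_
    rintro z ⟨hz, w, hw, h⟩
    exact ⟨hz, w, hw, by rw [h]; ring⟩
  by_cases hbd : b = d
  · subst hbd
    refine ⟨{a, b, c}, fun L hL => ?_⟩
    refine (quartic_deg a c b L (hL _ (by simp)) (hL _ (by simp)) (hL _ (by simp))).mono ?_
    rintro z ⟨hz, w, hw, h⟩
    exact ⟨hz, w, hw, by rw [h]; ring⟩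
  by_cases hcd : c = d
  · subst hcd
    refine ⟨{a, b, c}, fun L hL => ?_⟩
    refine (quartic_deg a b c L (hL _ (by simp)) (hL _ (by simp)) (hL _ (by simp))).mono ?_
    rintro z ⟨hz, w, hw, h⟩
    exact ⟨hz, w, hw, by rw [h]; ring⟩
  obtain ⟨V, hV⟩ := exists_val k
  set v := V.valuation with hv
  have h20 : (2 : k) ≠ 0 := two_ne_zero
  have ha' : a - d ≠ 0 := sub_ne_zero.2 had
  have hb' : b - d ≠ 0 := sub_ne_zero.2 hbd
  have hc' : c - d ≠ 0 := sub_ne_zero.2 hcd
  set δ : k := (a - d) * (b - d) * (c - d) with hδ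
  have hδ0 : δ ≠ 0 := mul_ne_zero (mul_ne_zero ha' hb') hc'
  set A : k := (a - d) * (b - d) + (a - d) * (c - d) + (b - d) * (c - d) with hA
  set B : k := δ * ((a - d) + (b - d) + (c - d)) with hB
  set C : k := δ ^ 2 with hC
  obtain ⟨w0, hw0, hmax⟩ := Finset.exists_max_image ({1, A, B, C} : Finset k) v ⟨1, by simp⟩
  have hw1 : 1 ≤ v w0 := by
    have := hmax 1 (by simp)
    rwa [map_one] at this
  have hwA : v A ≤ v w0 := hmax A (by simp)
  have hwB : v B ≤ v w0 := hmax B (by simp)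
  have hwC : v C ≤ v w0 := hmax C (by simp)
  have hlt : v w0 < v (w0 / 2) := by
    have h2pos : 0 < v 2 := zero_lt_iff.2 ((Valuation.ne_zero_iff v).2 h20)
    rw [map_div₀, lt_div_iff₀ h2pos]
    have hw0pos : 0 < v w0 := lt_of_lt_of_le zero_lt_one hw1
    calc v w0 * v 2 < v w0 * 1 := mul_lt_mul_of_pos_left hV hw0pos
      _ = v w0 := mul_one _
  obtain ⟨y0, hy0⟩ := IsAlgClosed.exists_pow_nat_eq
    ((w0 / 2) ^ 3 + A * (w0 / 2) ^ 2 + B * (w0 / 2) + C) (n := 2) (by norm_num)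
  refine ⟨{a, b, c, d, w0 / 2, y0}, fun L hL => ?_⟩
  have haL : a ∈ L := hL _ (by simp)
  have hbL : b ∈ L := hL _ (by simp)
  have hcL : c ∈ L := hL _ (by simp)
  have hdL : d ∈ L := hL _ (by simp)
  have had' := L.sub_mem haL hdL
  have hbd' := L.sub_mem hbL hdL
  have hcd' := L.sub_mem hcL hdL
  have hδL : δ ∈ L := L.mul_mem (L.mul_mem had' hbd') hcd'
  have hAL : A ∈ L := L.add_mem (L.add_mem (L.mul_mem had' hbd') (L.mul_mem had' hcd'))
    (L.mul_mem hbd' hcd')
  have hBL : B ∈ L := L.mul_mem hδL (L.add_mem (L.add_mem had' hbd') hcd')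
  have hCL : C ∈ L := L.pow_mem hδL 2
  have hinf := infinite_cubic v L hAL hBL hCL hV h20 (hL (w0 / 2) (by simp)) (hL y0 (by simp))
    (hw1.trans_lt hlt) (hwA.trans_lt hlt) (hwB.trans_lt hlt) (hwC.trans_lt hlt) hy0
  refine Set.infinite_of_injOn_mapsTo (f := fun x : k => δ / x - d) ?_ ?_ hinf
  · rintro x ⟨-, hx, -⟩ x' ⟨-, hx', -⟩ h
    simp only [sub_left_inj] at h
    rw [div_eq_div_iff hx hx'] at h
    exact (mul_left_cancel₀ hδ0 h).symm
  · rintro x ⟨hxL, hx, y, hyL, hxy⟩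
    refine ⟨L.sub_mem (L.div_mem hδL hxL) hdL, δ * y / x ^ 2, L.div_mem (L.mul_mem hδL hyL)
      (L.pow_mem hxL 2), ?_⟩
    rw [div_pow, mul_pow, hxy]
    have e1 : δ / x - d + a = (δ + (a - d) * x) / x := by field_simp; ring
    have e2 : δ / x - d + b = (δ + (b - d) * x) / x := by field_simp; ring
    have e3 : δ / x - d + c = (δ + (c - d) * x) / x := by field_simp; ring
    have e4 : δ / x - d + d = δ / x := by ring
    rw [e1, e2, e3, e4, div_mul_div_comm, div_mul_div_comm, div_mul_div_comm,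
      div_eq_div_iff (pow_ne_zero _ (pow_ne_zero _ hx)) (by
        exact mul_ne_zero (mul_ne_zero (mul_ne_zero hx hx) hx) hx), hA, hB, hC, hδ]
    ring

end quartic

end Pool.Agent.Helper568.LL
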