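import Pool.Agent.Helper568_LL.Arith

/-!
Infinitely many points over a finite extension: coverings of the line with two and three branch
points.
-/

set_option autoImplicit false

namespace Pool.Agent.Helper568.LL

variable {k : Type} [Field k] [CharZero k]

/-- two branch points -/
theorem infinite_two {n : ℕ} (hn : 1 ≤ n) (a b : k) (L : Subfield k) (ha : a ∈ L) (hb : b ∈ L) :
    {z : k | z ∈ L ∧ ∃ w ∈ L, w ^ n = (z + a) * (z + b) ^ (n - 1)}.Infinite := by
  by_cases hab : a = b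
  · subst hab
    refine Set.infinite_of_injective_forall_mem (f := fun i : ℕ => (i : k)) Nat.cast_injective
      fun i => ?_
    have hi : (i : k) ∈ L := natCast_mem L i
    refine ⟨hi, i + a, L.add_mem hi ha, ?_⟩
    rw [← pow_succ', Nat.sub_add_cancel hn]
  · have hd : b - a ≠ 0 := sub_ne_zero.2 (Ne.symm hab)
    have hne : ∀ i : ℕ, ((1 : k) - ((i : k) + 2) ^ n) ≠ 0 := by
      intro i h
      have h1 : ((i : k) + 2) ^ n = 1 := by linear_combination -h
      have h2 : (i + 2) ^ n = 1 := by exact_mod_cast h1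
      have h3 : 1 < (i + 2) ^ n := Nat.one_lt_pow (by omega) (by omega)
      omega
    refine Set.infinite_of_injective_forall_mem
      (f := fun i : ℕ => (b - a) / (1 - ((i : k) + 2) ^ n) - b) ?_ fun i => ?_
    · intro i j h
      simp only [sub_left_inj] at h
      rw [div_eq_div_iff (hne i) (hne j)] at h
      have h1 := mul_left_cancel₀ hd h
      have h2 : ((j : k) + 2) ^ n = ((i : k) + 2) ^ n := by linear_combination -h1
      have h3 : (j + 2) ^ n = (i + 2) ^ n := by exact_mod_cast h2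
      have h4 : j + 2 = i + 2 := Nat.pow_left_injective (n := n) (by omega) h3
      omega
    · have hi : (i : k) ∈ L := natCast_mem L i
      have h2 : (2 : k) ∈ L := by exact_mod_cast natCast_mem L 2
      have hr : (i : k) + 2 ∈ L := L.add_mem hi h2
      have hne' := hne i
      set r : k := (i : k) + 2 with hrdef
      have hq : (b - a) / (1 - r ^ n) ∈ L :=
        L.div_mem (L.sub_mem hb ha) (L.sub_mem L.one_mem (L.pow_mem hr n))
      have hzL : (b - a) / (1 - r ^ n) - b ∈ L := L.sub_mem hq hb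
      refine ⟨hzL, r * ((b - a) / (1 - r ^ n)), L.mul_mem hr hq, ?_⟩
      have e : (b - a) / (1 - r ^ n) - b + a = r ^ n * ((b - a) / (1 - r ^ n)) := by
        field_simp
        ring
      rw [e, sub_add_cancel, mul_pow, mul_assoc, ← pow_succ', Nat.sub_add_cancel hn]

omit [CharZero k] in
theorem finite_cube (s : Set k) (hs : s.Finite) : {x : k | x ^ 3 ∈ s}.Finite := by
  classical
  refine Set.Finite.preimage' (f := fun x : k => x ^ 3) hs fun b _ => ?_
  refine Set.Finite.subset (Polynomial.nthRoots 3 b).toFinset.finite_toSet ?_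
  intro x hx
  rw [Finset.mem_coe, Multiset.mem_toFinset, Polynomial.mem_nthRoots (by norm_num)]
  exact hx

theorem infinite_cubic3 [IsAlgClosed k] (a b c : k) : ∃ T : Finset k, ∀ L : Subfield k,
    (∀ x ∈ T, x ∈ L) →
    {z : k | z ∈ L ∧ ∃ w ∈ L, w ^ 3 = (z + a) * (z + b) * (z + c)}.Infinite := by
  classical
  by_cases hab : a = b
  · subst hab
    refine ⟨{a, c}, fun L hL => ?_⟩
    refine (infinite_two (n := 3) (by norm_num) c a L (hL _ (by simp)) (hL _ (by simp))).mono ?_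
    rintro z ⟨hz, w, hw, h⟩
    exact ⟨hz, w, hw, by rw [h]; ring⟩
  by_cases hac : a = c
  · subst hac
    refine ⟨{a, b}, fun L hL => ?_⟩
    refine (infinite_two (n := 3) (by norm_num) b a L (hL _ (by simp)) (hL _ (by simp))).mono ?_
    rintro z ⟨hz, w, hw, h⟩
    exact ⟨hz, w, hw, by rw [h]; ring⟩
  by_cases hbc : b = c
  · subst hbc
    refine ⟨{a, b}, fun L hL => ?_⟩
    refine (infinite_two (n := 3) (by norm_num) a b L (hL _ (by simp)) (hL _ (by simp))).mono ?_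
    rintro z ⟨hz, w, hw, h⟩
    exact ⟨hz, w, hw, by rw [h]; ring⟩
  have h1 : b - c ≠ 0 := sub_ne_zero.2 hbc
  have h2 : c - a ≠ 0 := sub_ne_zero.2 (Ne.symm hac)
  have h3 : a - b ≠ 0 := sub_ne_zero.2 hab
  obtain ⟨ρ, hρ⟩ := IsAlgClosed.exists_pow_nat_eq ((b - c) * (c - a) * (a - b)) (n := 3)
    (by norm_num)
  have hρ0 : ρ ≠ 0 := by
    rintro rfl
    rw [zero_pow (by norm_num)] at hρ
    exact mul_ne_zero (mul_ne_zero h1 h2) h3 hρ.symm
  obtain ⟨V, hV⟩ := exists_val k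
  set v := V.valuation with hv
  have h20 : (2 : k) ≠ 0 := two_ne_zero
  have h2pos : 0 < v 2 := zero_lt_iff.2 ((Valuation.ne_zero_iff v).2 h20)
  have hinv : 1 < v (2 : k)⁻¹ := by
    rw [map_inv₀]
    exact (one_lt_inv₀ h2pos).2 hV
  obtain ⟨y0, hy0⟩ := IsAlgClosed.exists_pow_nat_eq
    (((2 : k)⁻¹ ^ 3) ^ 3 + 0 * ((2 : k)⁻¹ ^ 3) ^ 2 + 0 * ((2 : k)⁻¹ ^ 3) + (2 : k)⁻¹ ^ 2) (n := 2)
    (by norm_num)
  refine ⟨{a, b, c, ρ, y0}, fun L hL => ?_⟩
  have haL : a ∈ L := hL _ (by simp)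
  have hbL : b ∈ L := hL _ (by simp)
  have hcL : c ∈ L := hL _ (by simp)
  have hρL : ρ ∈ L := hL _ (by simp)
  have h2L : (2 : k) ∈ L := by exact_mod_cast natCast_mem L 2
  have h2iL : (2 : k)⁻¹ ∈ L := L.inv_mem h2L
  have hlt : ∀ {i j : ℕ}, i < j → v (2 : k)⁻¹ ^ i < v (2 : k)⁻¹ ^ j := fun h =>
    pow_lt_pow_right₀ hinv h
  have hinf := infinite_cubic v L L.zero_mem L.zero_mem (L.pow_mem h2iL 2) hV h20
    (L.pow_mem h2iL 3) (hL y0 (by simp)) (by
      rw [map_pow]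
      exact one_lt_pow₀ hinv (by norm_num)) (by
      rw [map_zero, map_pow]
      exact pow_pos (zero_lt_one.trans hinv) 3) (by
      rw [map_zero, map_pow]
      exact pow_pos (zero_lt_one.trans hinv) 3) (by
      rw [map_pow, map_pow]
      exact hlt (by norm_num)) hy0
  intro hfin
  apply hinf
  set Z : Set k := {z : k | z ∈ L ∧ ∃ w ∈ L, w ^ 3 = (z + a) * (z + b) * (z + c)} with hZ
  let g : k → k := fun z => ((b - c) * ((z + a) / (z + b)) / (c - a) + 2⁻¹) ^ 2 - 2⁻¹ ^ 2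
  have hfin2 : (g '' Z ∪ {((b - c) / (c - a) + 2⁻¹) ^ 2 - (2 : k)⁻¹ ^ 2}).Finite :=
    (hfin.image g).union (Set.finite_singleton _)
  refine (finite_cube _ hfin2).subset ?_
  rintro x ⟨hxL, hx0, y, hyL, hxy⟩
  have hxy' : x ^ 3 = y ^ 2 - 2⁻¹ ^ 2 := by rw [hxy]; ring
  change x ^ 3 ∈ g '' Z ∪ {((b - c) / (c - a) + 2⁻¹) ^ 2 - (2 : k)⁻¹ ^ 2}
  set μ : k := (c - a) * (y - 2⁻¹) / (b - c) with hμ
  by_cases hμ1 : μ = 1
  · right
    rw [Set.mem_singleton_iff, hxy']
    have : y = (b - c) / (c - a) + 2⁻¹ := by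
      rw [hμ, div_eq_one_iff_eq h1] at hμ1
      rw [← hμ1]
      field_simp
      ring
    rw [this]
  · left
    have hμ1' : (1 : k) - μ ≠ 0 := sub_ne_zero.2 (Ne.symm hμ1)
    have hb0 : b - a ≠ 0 := sub_ne_zero.2 (Ne.symm hab)
    have hμL : μ ∈ L := L.div_mem (L.mul_mem (L.sub_mem hcL haL) (L.sub_mem hyL h2iL))
      (L.sub_mem hbL hcL)
    set ζ : k := (b - a) / (1 - μ) with hζ
    have hζ0 : ζ ≠ 0 := div_ne_zero hb0 hμ1'
    have hζL : ζ ∈ L := L.div_mem (L.sub_mem hbL haL) (L.sub_mem L.one_mem hμL)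
    have hza : ζ - b + a = μ * ζ := by
      have : ζ * (1 - μ) = b - a := by rw [hζ, div_mul_cancel₀ _ hμ1']
      linear_combination this
    have hμ' : μ * (b - c) = (c - a) * (y - 2⁻¹) := by rw [hμ, div_mul_cancel₀ _ h1]
    refine ⟨ζ - b, ⟨L.sub_mem hζL hbL, -(ζ * (c - a) * x / ρ), L.neg_mem (L.div_mem
      (L.mul_mem (L.mul_mem hζL (L.sub_mem hcL haL)) hxL) hρL), ?_⟩, ?_⟩
    · have hzc : (a - b) * (ζ - b + c) = - ((c - a) * ζ * (y + 2⁻¹)) := by
        have h22 : (2 : k) * 2⁻¹ = 1 := mul_inv_cancel₀ h20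
        have e1 : (a - b) * (ζ - b + c) = - ((b - c) * (ζ - b + a) + (c - a) * ζ) := by ring
        rw [e1, hza]
        linear_combination -ζ * hμ' + (-(ζ * (c - a))) * h22
      have e2 : (-(ζ * (c - a) * x / ρ)) ^ 3 = -(ζ ^ 3 * (c - a) ^ 3 * x ^ 3 / ρ ^ 3) := by ring
      rw [e2, hρ, hxy', sub_add_cancel, hza]
      have hprod : (b - c) * (c - a) * (a - b) ≠ 0 := mul_ne_zero (mul_ne_zero h1 h2) h3
      rw [neg_eq_iff_eq_neg, div_eq_iff hprod]
      have e3 : -(μ * ζ * ζ * (ζ - b + c)) * ((b - c) * (c - a) * (a - b)) =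
          -((μ * (b - c)) * ((a - b) * (ζ - b + c)) * ζ ^ 2 * (c - a)) := by ring
      rw [e3, hμ', hzc]
      ring
    · change ((b - c) * ((ζ - b + a) / (ζ - b + b)) / (c - a) + 2⁻¹) ^ 2 - 2⁻¹ ^ 2 = x ^ 3
      rw [hxy', sub_add_cancel, hza, mul_div_cancel_right₀ _ hζ0]
      have : (b - c) * μ / (c - a) = y - 2⁻¹ := by
        rw [mul_comm, hμ', mul_div_cancel_left₀ _ h2]
      rw [this]
      ring

end Pool.Agent.Helper568.LL
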