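import Pool.Agent.Helper568_LL.Cubic
import Pool.Agent.Helper568_GC.Core

/-!
The coverings of the line of genus at most one: entire curves, and infinitely many points over a
finite extension.
-/

set_option autoImplicit false

namespace Pool.Agent.Helper568.LL

open MvPolynomial

/-- a nonconstant entire curve in the covering `v ^ k = ∏ (f + c i g) ^ e i` of the line -/
def AnCurve {w : ℕ} (k : ℕ) (e : Fin w → ℕ) : Prop :=
  ∀ c : Fin w → ℂ, ∃ f g v : ℂ → ℂ, Differentiable ℂ f ∧ Differentiable ℂ g ∧ Differentiable ℂ v ∧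
    (∀ z, f z ≠ 0 ∨ g z ≠ 0) ∧ (∀ z, v z ^ k = ∏ i, (f z + c i * g z) ^ e i) ∧
    ∃ z z', f z' * g z - g z' * f z ≠ 0

/-- infinitely many points of the covering `v ^ k = ∏ (z + c i) ^ e i` over suitable fields -/
def ArCurve {w : ℕ} (k : ℕ) (e : Fin w → ℕ) : Prop :=
  ∀ (kk : Type) [Field kk] [CharZero kk] [IsAlgClosed kk] (c : Fin w → kk), ∃ T : Finset kk,
    ∀ L : Subfield kk, (∀ x ∈ T, x ∈ L) →
      {z : kk | z ∈ L ∧ ∃ v ∈ L, v ^ k = ∏ i, (z + c i) ^ e i}.Infinite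

theorem an_two {k : ℕ} (hk : 1 ≤ k) : AnCurve k (![1, k - 1] : Fin 2 → ℕ) := by
  intro c
  by_cases hc : c 0 = c 1
  · refine ⟨fun _ => 1, fun z => z, fun z => 1 + c 0 * z, by fun_prop, by fun_prop, by fun_prop,
      fun z => Or.inl one_ne_zero, fun z => ?_, ⟨0, 1, by norm_num⟩⟩
    rw [Fin.prod_univ_two, ← hc]
    simp only [Matrix.cons_val_zero, Matrix.cons_val_one]
    rw [pow_one, ← pow_succ', Nat.sub_add_cancel hk]
  · -- `f + c 0 g = 1`, `f + c 1 g = z ^ k`
    have hd : c 0 - c 1 ≠ 0 := sub_ne_zero.2 hc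
    have e1 : ∀ z : ℂ, (c 0 * z ^ k - c 1) / (c 0 - c 1) + c 0 * ((1 - z ^ k) / (c 0 - c 1)) = 1 := by
      intro z
      field_simp
      ring
    have e2 : ∀ z : ℂ, (c 0 * z ^ k - c 1) / (c 0 - c 1) + c 1 * ((1 - z ^ k) / (c 0 - c 1)) =
        z ^ k := by
      intro z
      field_simp
      ring
    refine ⟨fun z => (c 0 * z ^ k - c 1) / (c 0 - c 1), fun z => (1 - z ^ k) / (c 0 - c 1),
      fun z => z ^ (k - 1), by fun_prop, by fun_prop, by fun_prop, fun z => ?_, fun z => ?_,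
      ⟨0, 1, ?_⟩⟩
    · by_contra hcon
      push Not at hcon
      have := e1 z
      rw [hcon.1, hcon.2] at this
      simp at this
    · rw [Fin.prod_univ_two]
      simp only [Matrix.cons_val_zero, Matrix.cons_val_one]
      rw [e1, e2]
      ring
    · simp only [one_pow, sub_self, zero_div, zero_mul, sub_zero, mul_one]
      rw [zero_pow (by omega), div_self hd]
      simp only [sub_zero, one_mul]
      exact div_ne_zero one_ne_zero hd

/-- from the parametrisations -/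
theorem an_par {κ l k' w : ℕ} {e : Fin w → ℕ} {c : Fin w → ℂ} {q : ℂ → ℂ → ℂ}
    (hq : ∀ f g, (q f g) ^ k' = ∏ i, (f + c i * g) ^ e i)
    (hpar : Pool.Agent.Helper568.GC.Par κ l q) :
    ∃ f g v : ℂ → ℂ, Differentiable ℂ f ∧ Differentiable ℂ g ∧ Differentiable ℂ v ∧
    (∀ z, f z ≠ 0 ∨ g z ≠ 0) ∧ (∀ z, v z ^ (κ * k') = ∏ i, (f z + c i * g z) ^ e i) ∧
    ∃ z z', f z' * g z - g z' * f z ≠ 0 := by
  obtain ⟨c', hc', N, f, g, v, hN, hf, hg, hv, hcur, -, hsurj⟩ := hpar
  have hd := Pool.Agent.Helper568.GC.par_diff c'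
  refine ⟨fun z => eval (Pool.Agent.Helper568.GC.par c' z) f,
    fun z => eval (Pool.Agent.Helper568.GC.par c' z) g,
    fun z => eval (Pool.Agent.Helper568.GC.par c' z) v,
    Pool.Agent.Helper568.GC.diff_eval hd f, Pool.Agent.Helper568.GC.diff_eval hd g,
    Pool.Agent.Helper568.GC.diff_eval hd v,
    fun z => (hcur _ (Pool.Agent.Helper568.GC.par_mem hc' z)).1, fun z => ?_, ?_⟩
  · rw [pow_mul, (hcur _ (Pool.Agent.Helper568.GC.par_mem hc' z)).2, hq]
  · by_contra hcon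
    push Not at hcon
    set f0 := eval (Pool.Agent.Helper568.GC.par c' 0) f with hf0
    set g0 := eval (Pool.Agent.Helper568.GC.par c' 0) g with hg0
    have hfg0 : f0 ≠ 0 ∨ g0 ≠ 0 := (hcur _ (Pool.Agent.Helper568.GC.par_mem hc' 0)).1
    set T : MvPolynomial (Fin 3) ℂ := C g0 * f + C (-f0) * g with hT
    have hTw : IsWeightedHomogeneous (Pool.Agent.Helper568.GC.wts c') T N :=
      Pool.Agent.Helper568.GC.wh_lin hf hg _ _
    have hsc : Pool.Agent.Helper568.GC.Sc (Pool.Agent.Helper568.GC.wts c') T N := by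
      intro a P
      exact Pool.Agent.Helper568.GC.eval_act' hTw a P
    have hT0 : ∀ z : ℂ, z ≠ 0 → eval (Pool.Agent.Helper568.GC.par c' z) T = 0 := by
      intro z _
      have h1 := hcon 0 z
      simp only [hT, map_add, map_mul, eval_C]
      rw [← hf0, ← hg0] at h1
      linear_combination h1
    have hall : ∀ P ∈ Pool.Agent.Helper568.GC.Pts c', eval P T = 0 := fun P hP =>
      Pool.Agent.Helper568.GC.par_dense hsc hT0 hP
    rcases hfg0 with h | h
    · obtain ⟨P, hP, hP1, hP2⟩ := hsurj 0 1 (Or.inr one_ne_zero)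
      have h2 := hall P hP
      simp only [hT, map_add, map_mul, eval_C, hP1, hP2] at h2
      apply h
      linear_combination -h2
    · obtain ⟨P, hP, hP1, hP2⟩ := hsurj 1 0 (Or.inl one_ne_zero)
      have h2 := hall P hP
      simp only [hT, map_add, map_mul, eval_C, hP1, hP2] at h2
      apply h
      linear_combination h2

theorem an_four (k' : ℕ) : AnCurve (2 * k') (fun _ : Fin 4 => k') := by
  intro c
  refine an_par (q := fun f g => (f + c 0 * g) * (f + c 1 * g) * (f + c 2 * g) * (f + c 3 * g))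
    (fun f g => ?_) (Pool.Agent.Helper568.GC.par_two (c 0) (c 1) (c 2) (c 3))
  rw [Fin.prod_univ_four, mul_pow, mul_pow, mul_pow]

theorem an_three (k' : ℕ) : AnCurve (3 * k') (fun _ : Fin 3 => k') := by
  intro c
  refine an_par (q := fun f g => (f + c 0 * g) * (f + c 1 * g) * (f + c 2 * g))
    (fun f g => ?_) (Pool.Agent.Helper568.GC.par_three (c 0) (c 1) (c 2))
  rw [Fin.prod_univ_three, mul_pow, mul_pow]

theorem ar_two {k : ℕ} (hk : 1 ≤ k) : ArCurve k (![1, k - 1] : Fin 2 → ℕ) := by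
  classical
  intro kk _ _ _ c
  refine ⟨{c 0, c 1}, fun L hL => ?_⟩
  refine (infinite_two hk (c 0) (c 1) L (hL _ (by simp)) (hL _ (by simp))).mono ?_
  rintro z ⟨hz, w, hw, h⟩
  refine ⟨hz, w, hw, ?_⟩
  rw [h, Fin.prod_univ_two]
  simp

theorem ar_four (k' : ℕ) : ArCurve (2 * k') (fun _ : Fin 4 => k') := by
  intro kk _ _ _ c
  obtain ⟨T, hT⟩ := infinite_quartic (c 0) (c 1) (c 2) (c 3)
  refine ⟨T, fun L hL => (hT L hL).mono ?_⟩
  rintro z ⟨hz, w, hw, h⟩
  refine ⟨hz, w, hw, ?_⟩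
  rw [pow_mul, h, Fin.prod_univ_four, mul_pow, mul_pow, mul_pow]

theorem ar_three (k' : ℕ) : ArCurve (3 * k') (fun _ : Fin 3 => k') := by
  intro kk _ _ _ c
  obtain ⟨T, hT⟩ := infinite_cubic3 (c 0) (c 1) (c 2)
  refine ⟨T, fun L hL => (hT L hL).mono ?_⟩
  rintro z ⟨hz, w, hw, h⟩
  refine ⟨hz, w, hw, ?_⟩
  rw [pow_mul, h, Fin.prod_univ_three, mul_pow, mul_pow]

end Pool.Agent.Helper568.LL
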