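import Mathlib

/-!
The cyclic covering `y ^ k = F (x)` of the projective space with the homogeneous coordinates
`x i`: its points, finiteness of the set of rational points, and hyperbolicity. Here `F` is a form of
degree `k m`, and the covering is a hypersurface in the weighted projective space in which the
coordinates `x i` have weight one and `y` has weight `m`.
-/

set_option autoImplicit false

namespace Pool.Agent.Helper568.LL

open MvPolynomial

variable {L : Type} [Field L] {M : ℕ}

/-- `(y, x)` are coordinates of a point of the covering `y ^ k = F (x)`. -/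
def IsPt (k : ℕ) (F : MvPolynomial (Fin M) L) (P : L × (Fin M → L)) : Prop :=
  P.2 ≠ 0 ∧ P.1 ^ k = eval P.2 F

/-- The two vectors are coordinates of the same point. -/
def Same (m : ℕ) (P Q : L × (Fin M → L)) : Prop :=
  ∃ c : L, c ≠ 0 ∧ Q.1 = c ^ m * P.1 ∧ Q.2 = fun i => c * P.2 i

/-- The covering has only finitely many points over the field `L`. -/
def FinitelyManyPoints (m k : ℕ) (F : MvPolynomial (Fin M) L) : Prop :=
  ∃ S : Finset (L × (Fin M → L)), ∀ P, IsPt k F P → ∃ Q ∈ S, Same m Q P

/-- The covering is Brody hyperbolic: all entire curves in it are constant. -/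
def Hyperbolic (m k : ℕ) (F : MvPolynomial (Fin M) ℂ) : Prop :=
  ∀ (y : ℂ → ℂ) (x : ℂ → Fin M → ℂ), Differentiable ℂ y → Differentiable ℂ x →
    (∀ z, IsPt k F (y z, x z)) → ∀ z z', Same m (y z, x z) (y z', x z')

end Pool.Agent.Helper568.LL
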