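import Mathlib

/-!
Lines on which a form has prescribed multiplicities: specialisation to the residue field of a
valuation ring, and descent to an algebraically closed subfield.
-/

set_option autoImplicit false

namespace Pool.Agent.Helper568.LL

open MvPolynomial

/-- On some line the form `F` is a constant (possibly zero) times a product of powers of linear
forms with the exponents `e l`. -/
def Contact {Ω : Type} [Field Ω] {M u : ℕ} (e : Fin u → ℕ) (F : MvPolynomial (Fin M) Ω) : Prop :=
  ∃ (p q : Fin M → Ω) (α β : Fin u → Ω) (Λ : Ω), (∃ i j, p i * q j - p j * q i ≠ 0) ∧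
    (∀ l, α l ≠ 0 ∨ β l ≠ 0) ∧
    ∀ s t : Ω, eval (fun m => s * p m + t * q m) F = Λ * ∏ l, (α l * s + β l * t) ^ e l

section spec

variable {Ω : Type} [Field Ω] (V : ValuationSubring Ω) {M u : ℕ} {e : Fin u → ℕ}

theorem primitive {A B : Ω} (h : A ≠ 0 ∨ B ≠ 0) : ∃ (μ : Ω) (a b : V), A = μ * a ∧ B = μ * b ∧
    (a = 1 ∨ b = 1) := by
  rcases le_total (V.valuation B) (V.valuation A) with h1 | h1
  · have hA : A ≠ 0 := by
      rintro rfl
      rw [map_zero, le_zero_iff] at h1
      have := (Valuation.zero_iff _).1 h1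
      tauto
    have h2 : V.valuation (B / A) ≤ 1 := by
      rw [map_div₀]
      exact div_le_one_of_le₀ h1 (zero_le)
    refine ⟨A, 1, ⟨B / A, (V.valuation_le_one_iff _).1 h2⟩, ?_, ?_, Or.inl rfl⟩
    · simp
    · simp only []
      rw [mul_div_cancel₀ _ hA]
  · have hB : B ≠ 0 := by
      rintro rfl
      rw [map_zero, le_zero_iff] at h1
      have := (Valuation.zero_iff _).1 h1
      tauto
    have h2 : V.valuation (A / B) ≤ 1 := by
      rw [map_div₀]
      exact div_le_one_of_le₀ h1 (zero_le)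
    refine ⟨B, ⟨A / B, (V.valuation_le_one_iff _).1 h2⟩, 1, ?_, ?_, Or.inr rfl⟩
    · simp only []
      rw [mul_div_cancel₀ _ hB]
    · simp

theorem exists_good {κ : Type} [Field κ] [Infinite κ] {u : ℕ} (a b : Fin u → κ)
    (h : ∀ l, a l ≠ 0 ∨ b l ≠ 0) : ∃ z : κ, ∀ l, a l + b l * z ≠ 0 := by
  classical
  have hne : (∏ l, (Polynomial.C (a l) + Polynomial.C (b l) * Polynomial.X)) ≠ 0 := by
    rw [Finset.prod_ne_zero_iff]
    intro l _ h0
    have h1 := congrArg (fun P => Polynomial.coeff P 0) h0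
    have h2 := congrArg (fun P => Polynomial.coeff P 1) h0
    simp at h1 h2
    rcases h l with h | h
    · exact h h1
    · exact h h2
  by_contra hcon
  push Not at hcon
  apply hne
  apply Polynomial.funext
  intro z
  obtain ⟨l, hl⟩ := hcon z
  rw [Polynomial.eval_prod, Polynomial.eval_zero]
  refine Finset.prod_eq_zero (Finset.mem_univ l) ?_
  simpa using hl

/-- **Specialisation.** -/
theorem Contact.spec [Infinite (IsLocalRing.ResidueField V)] {F : MvPolynomial (Fin M) V}
    (h : Contact e (map (algebraMap V Ω) F)) :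
    Contact e (map (IsLocalRing.residue V) F) := by
  classical
  obtain ⟨p, q, α, β, Λ, ⟨i0, j0, h0⟩, hαβ, hF⟩ := h
  obtain ⟨⟨i, j⟩, -, hmax⟩ := Finset.exists_max_image (Finset.univ : Finset (Fin M × Fin M))
    (fun ij => V.valuation (p ij.1 * q ij.2 - p ij.2 * q ij.1)) ⟨(i0, j0), Finset.mem_univ _⟩
  set Δ : Ω := p i * q j - p j * q i with hΔ
  have hmax' : ∀ a b, V.valuation (p a * q b - p b * q a) ≤ V.valuation Δ := fun a b =>
    hmax (a, b) (Finset.mem_univ _)
  have hΔ0 : Δ ≠ 0 := by
    intro h1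
    have h2 := hmax' i0 j0
    rw [h1, map_zero, le_zero_iff] at h2
    exact h0 ((Valuation.zero_iff _).1 h2)
  have hvΔ : V.valuation Δ ≠ 0 := (Valuation.ne_zero_iff _).2 hΔ0
  have hP : ∀ m, (q j * p m - p j * q m) / Δ ∈ V := by
    intro m
    rw [← V.valuation_le_one_iff, map_div₀]
    refine div_le_one_of_le₀ ?_ zero_le
    have := hmax' m j
    have e1 : q j * p m - p j * q m = p m * q j - p j * q m := by ring
    rwa [e1]
  have hQ : ∀ m, (p i * q m - q i * p m) / Δ ∈ V := by
    intro m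
    rw [← V.valuation_le_one_iff, map_div₀]
    refine div_le_one_of_le₀ ?_ zero_le
    have := hmax' i m
    have e1 : p i * q m - q i * p m = p i * q m - p m * q i := by ring
    rwa [e1]
  let P : Fin M → V := fun m => ⟨_, hP m⟩
  let Q : Fin M → V := fun m => ⟨_, hQ m⟩
  have hPi : P i = 1 := by
    apply Subtype.ext
    change (q j * p i - p j * q i) / Δ = 1
    rw [div_eq_one_iff_eq hΔ0, hΔ]
    ring
  have hPj : P j = 0 := by
    apply Subtype.ext
    change (q j * p j - p j * q j) / Δ = 0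
    rw [mul_comm, sub_self, zero_div]
  have hQi : Q i = 0 := by
    apply Subtype.ext
    change (p i * q i - q i * p i) / Δ = 0
    rw [mul_comm, sub_self, zero_div]
  have hQj : Q j = 1 := by
    apply Subtype.ext
    change (p i * q j - q i * p j) / Δ = 1
    rw [div_eq_one_iff_eq hΔ0, hΔ]
    ring
  have hlin : ∀ l, ∃ (μ : Ω) (a b : V), (α l * q j - β l * p j) / Δ = μ * a ∧
      (β l * p i - α l * q i) / Δ = μ * b ∧ (a = 1 ∨ b = 1) := by
    intro l
    apply primitive
    by_contra hcon
    push Not at hcon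
    obtain ⟨h1, h2⟩ := hcon
    rw [div_eq_zero_iff] at h1 h2
    have h3 : α l * q j - β l * p j = 0 := by tauto
    have h4 : β l * p i - α l * q i = 0 := by tauto
    rcases hαβ l with h | h
    · apply h
      have : α l * Δ = 0 := by
        rw [hΔ]
        linear_combination p i * h3 + p j * h4
      exact (mul_eq_zero.1 this).resolve_right hΔ0
    · apply h
      have : β l * Δ = 0 := by
        rw [hΔ]
        linear_combination q i * h3 + q j * h4
      exact (mul_eq_zero.1 this).resolve_right hΔ0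
  choose μ a b hμa hμb hab using hlin
  -- the identity over `Ω`
  set Λ' : Ω := Λ * ∏ l, μ l ^ e l with hΛ'
  have hid : ∀ s t : Ω, eval (fun m => s * (P m : Ω) + t * (Q m : Ω)) (map (algebraMap V Ω) F) =
      Λ' * ∏ l, ((a l : Ω) * s + (b l : Ω) * t) ^ e l := by
    intro s t
    have h1 := hF ((q j * s - q i * t) / Δ) ((p i * t - p j * s) / Δ)
    have e1 : (fun m => (q j * s - q i * t) / Δ * p m + (p i * t - p j * s) / Δ * q m) =
        fun m => s * (P m : Ω) + t * (Q m : Ω) := by
      funext m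
      change _ = s * ((q j * p m - p j * q m) / Δ) + t * ((p i * q m - q i * p m) / Δ)
      field_simp
      ring
    rw [e1] at h1
    rw [h1, hΛ', mul_assoc, ← Finset.prod_mul_distrib]
    congr 1
    refine Finset.prod_congr rfl fun l _ => ?_
    rw [← mul_pow]
    congr 1
    have e2 : μ l * ((a l : Ω) * s + (b l : Ω) * t) = (μ l * a l) * s + (μ l * b l) * t := by ring
    rw [e2, ← hμa, ← hμb]
    field_simp
    ring
  have hres : ∀ l, IsLocalRing.residue V (a l) ≠ 0 ∨ IsLocalRing.residue V (b l) ≠ 0 := by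
    intro l
    rcases hab l with h | h
    · left; rw [h, map_one]; exact one_ne_zero
    · right; rw [h, map_one]; exact one_ne_zero
  obtain ⟨zr, hz⟩ := exists_good _ _ hres
  obtain ⟨z, rfl⟩ := IsLocalRing.residue_surjective zr
  have hunit : ∀ l, IsUnit (a l + b l * z) := by
    intro l
    have := hz l
    rw [← map_mul, ← map_add] at this
    exact (IsLocalRing.residue_ne_zero_iff_isUnit _).1 this
  have hW : IsUnit (∏ l, (a l + b l * z) ^ e l) := by
    refine Finset.prod_induction _ IsUnit (fun _ _ => IsUnit.mul) isUnit_one fun l _ => ?_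
    exact (hunit l).pow _
  obtain ⟨W, hW'⟩ := hW
  have hev : ∀ x : Fin M → V, eval (fun m => (x m : Ω)) (map (algebraMap V Ω) F) =
      ((eval x F : V) : Ω) := by
    intro x
    have := MvPolynomial.map_eval (algebraMap V Ω) x F
    exact this.symm
  have hcoe : ∀ s t : V, ((∏ l, (a l * s + b l * t) ^ e l : V) : Ω) =
      ∏ l, ((a l : Ω) * s + (b l : Ω) * t) ^ e l := by
    intro s t
    change algebraMap V Ω _ = _
    rw [map_prod]
    rfl
  let L : V := (eval (fun m => P m + z * Q m) F) * (↑W⁻¹ : V)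
  have hL : (L : Ω) = Λ' := by
    have h1 := hid 1 z
    have e1 : (fun m => (1 : Ω) * (P m : Ω) + (z : Ω) * (Q m : Ω)) =
        fun m => ((P m + z * Q m : V) : Ω) := by
      funext m
      rw [one_mul]
      rfl
    rw [e1, hev] at h1
    have e2 : (∏ l, ((a l : Ω) * 1 + (b l : Ω) * z) ^ e l) = ((W : V) : Ω) := by
      rw [hW']
      change _ = algebraMap V Ω _
      rw [map_prod]
      refine Finset.prod_congr rfl fun l _ => ?_
      rw [mul_one]
      rfl
    rw [e2] at h1
    change ((eval (fun m => P m + z * Q m) F : V) : Ω) * ((↑W⁻¹ : V) : Ω) = Λ'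
    rw [h1, mul_assoc]
    have e3 : ((W : V) : Ω) * ((↑W⁻¹ : V) : Ω) = 1 := by
      change (((W : V) * (↑W⁻¹ : V) : V) : Ω) = 1
      rw [Units.mul_inv]
      rfl
    rw [e3, mul_one]
  have hV : ∀ s t : V, eval (fun m => s * P m + t * Q m) F =
      L * ∏ l, (a l * s + b l * t) ^ e l := by
    intro s t
    apply Subtype.ext
    have h1 := hid s t
    have e1 : (fun m => (s : Ω) * (P m : Ω) + (t : Ω) * (Q m : Ω)) =
        fun m => ((s * P m + t * Q m : V) : Ω) := rfl
    rw [e1, hev, ← hL, ← hcoe] at h1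
    exact h1
  refine ⟨fun m => IsLocalRing.residue V (P m), fun m => IsLocalRing.residue V (Q m),
    fun l => IsLocalRing.residue V (a l), fun l => IsLocalRing.residue V (b l),
    IsLocalRing.residue V L, ⟨i, j, ?_⟩, hres, ?_⟩
  · simp only []
    rw [hPi, hPj, hQi, hQj]
    simp
  · intro s t
    obtain ⟨s, rfl⟩ := IsLocalRing.residue_surjective s
    obtain ⟨t, rfl⟩ := IsLocalRing.residue_surjective t
    have h1 := congrArg (IsLocalRing.residue V) (hV s t)
    rw [MvPolynomial.map_eval, map_mul, map_prod] at h1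
    convert h1 using 2
    · congr 1
    · refine Finset.prod_congr rfl fun l _ => ?_
      simp

end spec

section descent

variable {k κ : Type} [Field k] [Field κ] [Algebra k κ] {M u : ℕ} {e : Fin u → ℕ}

/-- the unknowns -/
inductive Un (M u : ℕ) : Type
  | p (m : Fin M)
  | q (m : Fin M)
  | α (l : Fin u)
  | β (l : Fin u)
  | γ (l : Fin u)
  | δ (l : Fin u)
  | Λ
  | μ
  deriving DecidableEq

def unEquiv (M u : ℕ) : Un M u ≃
    (Fin M ⊕ Fin M) ⊕ ((Fin u ⊕ Fin u) ⊕ (Fin u ⊕ Fin u)) ⊕ (Unit ⊕ Unit) where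
  toFun
    | .p m => Sum.inl (Sum.inl m)
    | .q m => Sum.inl (Sum.inr m)
    | .α l => Sum.inr (Sum.inl (Sum.inl (Sum.inl l)))
    | .β l => Sum.inr (Sum.inl (Sum.inl (Sum.inr l)))
    | .γ l => Sum.inr (Sum.inl (Sum.inr (Sum.inl l)))
    | .δ l => Sum.inr (Sum.inl (Sum.inr (Sum.inr l)))
    | .Λ => Sum.inr (Sum.inr (Sum.inl ()))
    | .μ => Sum.inr (Sum.inr (Sum.inr ()))
  invFun
    | Sum.inl (Sum.inl m) => .p m
    | Sum.inl (Sum.inr m) => .q m
    | Sum.inr (Sum.inl (Sum.inl (Sum.inl l))) => .α l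
    | Sum.inr (Sum.inl (Sum.inl (Sum.inr l))) => .β l
    | Sum.inr (Sum.inl (Sum.inr (Sum.inl l))) => .γ l
    | Sum.inr (Sum.inl (Sum.inr (Sum.inr l))) => .δ l
    | Sum.inr (Sum.inr (Sum.inl ())) => .Λ
    | Sum.inr (Sum.inr (Sum.inr ())) => .μ
  left_inv x := by cases x <;> rfl
  right_inv x := by
    rcases x with ((_ | _) | ((_ | _) | (_ | _)) | (_ | _)) <;> rfl

instance (M u : ℕ) : Finite (Un M u) := Finite.of_equiv _ (unEquiv M u).symm

/-- **Descent.** -/
theorem Contact.descend [IsAlgClosed k] {F : MvPolynomial (Fin M) k}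
    (h : Contact e (map (algebraMap k κ) F)) : Contact e F := by
  classical
  obtain ⟨p, q, α, β, Λ, ⟨i, j, h0⟩, hαβ, hF⟩ := h
  have hbez : ∀ l, ∃ γ δ : κ, α l * γ + β l * δ = 1 := by
    intro l
    rcases hαβ l with h | h
    · exact ⟨(α l)⁻¹, 0, by rw [mul_inv_cancel₀ h]; ring⟩
    · exact ⟨0, (β l)⁻¹, by rw [mul_inv_cancel₀ h]; ring⟩
  choose γ δ hγδ using hbez
  let v0 : Un M u → κ := fun x => match x with
    | .p m => p m
    | .q m => q m
    | .α l => α l
    | .β l => β l
    | .γ l => γ l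
    | .δ l => δ l
    | .Λ => Λ
    | .μ => (p i * q j - p j * q i)⁻¹
  let G : k → k → MvPolynomial (Un M u) k := fun s t =>
    aeval (fun m => C s * X (Un.p m) + C t * X (Un.q m)) F -
      X Un.Λ * ∏ l, (X (Un.α l) * C s + X (Un.β l) * C t) ^ e l
  let S : Set (MvPolynomial (Un M u) k) :=
    {(X (Un.p i) * X (Un.q j) - X (Un.p j) * X (Un.q i)) * X Un.μ - 1} ∪
      Set.range (fun l => X (Un.α l) * X (Un.γ l) + X (Un.β l) * X (Un.δ l) - 1) ∪
      {g | ∃ s t, g = G s t}
  have hG : ∀ (R : Type) [CommRing R] [Algebra k R] (w : Un M u → R) (s t : k),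
      aeval w (G s t) = aeval (fun m => algebraMap k R s * w (Un.p m) +
        algebraMap k R t * w (Un.q m)) F -
        w Un.Λ * ∏ l, (w (Un.α l) * algebraMap k R s + w (Un.β l) * algebraMap k R t) ^ e l := by
    intro R _ _ w s t
    simp only [G, map_sub, map_mul, map_prod, map_pow, map_add, aeval_X]
    congr 1
    · have := MvPolynomial.comp_aeval_apply (f := fun m => C s * X (Un.p m) + C t * X (Un.q m))
        (aeval w : MvPolynomial (Un M u) k →ₐ[k] R) F
      rw [this]
      congr 1
      congr 1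
      funext m
      simp
    · simp
  have hI : ∀ g ∈ Ideal.span S, aeval v0 g = 0 := by
    intro g hg
    have hle : Ideal.span S ≤ RingHom.ker (aeval v0 : MvPolynomial (Un M u) k →ₐ[k] κ) := by
      rw [Ideal.span_le]
      rintro x ((hx | ⟨l, rfl⟩) | ⟨s, t, rfl⟩)
      · rw [Set.mem_singleton_iff] at hx
        subst hx
        rw [SetLike.mem_coe, RingHom.mem_ker]
        simp only [map_sub, map_mul, aeval_X, map_one, v0]
        rw [mul_inv_cancel₀ h0, sub_self]
      · rw [SetLike.mem_coe, RingHom.mem_ker]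
        simp only [map_sub, map_mul, map_add, aeval_X, map_one, v0]
        rw [hγδ, sub_self]
      · rw [SetLike.mem_coe, RingHom.mem_ker, hG]
        have h1 := hF (algebraMap k κ s) (algebraMap k κ t)
        rw [eval_map] at h1
        simp only [v0]
        rw [aeval_def, h1, sub_self]
    exact hle hg
  have hne : Ideal.span S ≠ ⊤ := by
    intro h
    have h1 := hI 1 (h ▸ Submodule.mem_top)
    rw [map_one] at h1
    exact one_ne_zero h1
  obtain ⟨m, hm, hle⟩ := Ideal.exists_le_maximal _ hne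
  obtain ⟨w, hw⟩ := MvPolynomial.isMaximal_iff_eq_vanishingIdeal_singleton.1 hm
  have hz : ∀ g ∈ S, aeval w g = 0 := by
    intro g hg
    have h1 : g ∈ m := hle (Ideal.subset_span hg)
    rw [hw] at h1
    exact h1 w rfl
  refine ⟨fun m => w (Un.p m), fun m => w (Un.q m), fun l => w (Un.α l), fun l => w (Un.β l),
    w Un.Λ, ⟨i, j, ?_⟩, ?_, ?_⟩
  · have h1 := hz _ (Or.inl (Or.inl rfl))
    simp only [map_sub, map_mul, aeval_X, map_one] at h1
    intro h2
    rw [h2] at h1
    simp at h1
  · intro l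
    have h1 := hz _ (Or.inl (Or.inr ⟨l, rfl⟩))
    simp only [map_sub, map_mul, map_add, aeval_X, map_one] at h1
    by_contra hcon
    push Not at hcon
    rw [hcon.1, hcon.2] at h1
    simp at h1
  · intro s t
    have h1 := hz _ (Or.inr ⟨s, t, rfl⟩)
    rw [hG] at h1
    exact sub_eq_zero.1 h1

end descent

end Pool.Agent.Helper568.LL
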