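import Pool.Agent.Helper568_LL.Alg
import Pool.Agent.Helper568_LL.Spec

/-!
Every form of degree `∑ e l` in `N + 2` variables is, on some line, a constant times a product of
powers of linear forms with the exponents `e l`, if `∑ (e l - 1) ≤ 2 N`.
-/

set_option autoImplicit false

namespace Pool.Agent.Helper568.LL

open MvPolynomial Filter Topology

variable {N u : ℕ}

/-- The unknowns: `a j`, `b j`, `c l`, the constant (`true`) and the parameter (`false`). -/
abbrev W (N u : ℕ) : Type := (Fin N ⊕ Fin N) ⊕ (Fin u ⊕ Bool)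

def pp {S : Type} [CommRing S] (a : Fin N → S) : Fin (N + 2) → S := Fin.cons 1 (Fin.cons 0 a)

def qq {S : Type} [CommRing S] (b : Fin N → S) : Fin (N + 2) → S := Fin.cons 0 (Fin.cons 1 b)

/-- the special form -/
noncomputable def special (N : ℕ) (e : Fin u → ℕ) : MvPolynomial (Fin (N + 2)) ℂ :=
  ∏ l : Fin u, (X 0 + C (((l : ℕ) : ℂ) + 1) * X 1) ^ e l +
    ∑ j : Fin N, if 2 * (j : ℕ) + 1 ≤ ∑ l, e l then
      X j.succ.succ * X 0 ^ (∑ l, e l - 1 - 2 * (j : ℕ)) * X 1 ^ (2 * (j : ℕ)) else 0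

theorem special_hom (e : Fin u → ℕ) : (special N e).IsHomogeneous (∑ l, e l) := by
  refine IsHomogeneous.add ?_ ?_
  · refine IsHomogeneous.prod _ _ _ fun l _ => ?_
    have h1 : (X 0 + C (((l : ℕ) : ℂ) + 1) * X 1 : MvPolynomial (Fin (N + 2)) ℂ).IsHomogeneous 1 := by
      refine (isHomogeneous_X _ _).add ?_
      have := (isHomogeneous_C (Fin (N + 2)) (((l : ℕ) : ℂ) + 1)).mul (isHomogeneous_X ℂ (1 : Fin (N + 2)))
      simpa using this
    simpa using h1.pow (e l)
  · refine IsHomogeneous.sum _ _ _ fun j _ => ?_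
    split_ifs with h
    · have := ((isHomogeneous_X ℂ (j.succ.succ : Fin (N + 2))).mul
        (isHomogeneous_X_pow (R := ℂ) (0 : Fin (N + 2)) (∑ l, e l - 1 - 2 * (j : ℕ)))).mul
        (isHomogeneous_X_pow (R := ℂ) (1 : Fin (N + 2)) (2 * (j : ℕ)))
      convert this using 1
      omega
    · exact isHomogeneous_zero _ _ _

theorem special_line {S : Type} [CommRing S] [Algebra ℂ S] (e : Fin u → ℕ) (a b : Fin N → S) (z : S) :
    aeval (fun m => pp a m + z * qq b m) (special N e) =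
      ∏ l : Fin u, (1 + z * algebraMap ℂ S (((l : ℕ) : ℂ) + 1)) ^ e l +
        ∑ j : Fin N, (if 2 * (j : ℕ) + 1 ≤ ∑ l, e l then (a j + z * b j) * z ^ (2 * (j : ℕ)) else 0) := by
  have h0 : pp a 0 + z * qq b 0 = 1 := by simp [pp, qq]
  have h1 : pp a 1 + z * qq b 1 = z := by
    have e1 : pp a 1 = 0 := rfl
    have e2 : qq b 1 = 1 := rfl
    rw [e1, e2]
    ring
  have hj : ∀ j : Fin N, pp a j.succ.succ + z * qq b j.succ.succ = a j + z * b j := fun j => rfl
  unfold special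
  rw [map_add, map_prod, map_sum]
  congr 1
  · refine Finset.prod_congr rfl fun l _ => ?_
    simp only [map_pow, map_add, map_mul, aeval_X, aeval_C, h0, h1]
    rw [mul_comm]
  · refine Finset.sum_congr rfl fun j _ => ?_
    split_ifs
    · simp only [map_mul, map_pow, aeval_X, h0, h1, hj]
      ring
    · exact map_zero _

/-- the conditions -/
noncomputable def Φ (e : Fin u → ℕ) (F : MvPolynomial (Fin (N + 2)) ℂ) (j : ℕ) :
    MvPolynomial (W N u) ℂ :=
  (1 - X (Sum.inr (Sum.inr false))) *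
      aeval (fun m => pp (fun i => X (Sum.inl (Sum.inl i))) m +
        (j : MvPolynomial (W N u) ℂ) * qq (fun i => X (Sum.inl (Sum.inr i))) m) (special N e) +
    X (Sum.inr (Sum.inr false)) *
      aeval (fun m => pp (fun i => X (Sum.inl (Sum.inl i))) m +
        (j : MvPolynomial (W N u) ℂ) * qq (fun i => X (Sum.inl (Sum.inr i))) m) F -
    X (Sum.inr (Sum.inr true)) * ∏ l : Fin u, (1 + (j : MvPolynomial (W N u) ℂ) *
      X (Sum.inr (Sum.inl l))) ^ e l

theorem aeval_Φ {S : Type} [CommRing S] [Algebra ℂ S] (e : Fin u → ℕ)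
    (F : MvPolynomial (Fin (N + 2)) ℂ) (j : ℕ) (w : W N u → S) :
    aeval w (Φ e F j) = (1 - w (Sum.inr (Sum.inr false))) *
      aeval (fun m => pp (fun i => w (Sum.inl (Sum.inl i))) m +
        (j : S) * qq (fun i => w (Sum.inl (Sum.inr i))) m) (special N e) +
    w (Sum.inr (Sum.inr false)) *
      aeval (fun m => pp (fun i => w (Sum.inl (Sum.inl i))) m +
        (j : S) * qq (fun i => w (Sum.inl (Sum.inr i))) m) F -
    w (Sum.inr (Sum.inr true)) * ∏ l : Fin u, (1 + (j : S) * w (Sum.inr (Sum.inl l))) ^ e l := by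
  have key : ∀ G : MvPolynomial (Fin (N + 2)) ℂ,
      aeval w (aeval (fun m => pp (fun i => X (Sum.inl (Sum.inl i))) m +
        (j : MvPolynomial (W N u) ℂ) * qq (fun i => X (Sum.inl (Sum.inr i))) m) G) =
      aeval (fun m => pp (fun i => w (Sum.inl (Sum.inl i))) m +
        (j : S) * qq (fun i => w (Sum.inl (Sum.inr i))) m) G := by
    intro G
    have h1 := MvPolynomial.comp_aeval_apply
      (f := fun m => pp (fun i => X (Sum.inl (Sum.inl i))) m +
        (j : MvPolynomial (W N u) ℂ) * qq (fun i => X (Sum.inl (Sum.inr i))) m)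
      (aeval w : MvPolynomial (W N u) ℂ →ₐ[ℂ] S) G
    rw [h1]
    congr 1
    congr 1
    funext m
    refine Fin.cases ?_ (fun m => Fin.cases ?_ (fun m => ?_) m) m
    · simp [pp, qq]
    · simp [pp, qq]
    · simp [pp, qq]
  unfold Φ
  simp only [map_sub, map_add, map_mul, map_one, aeval_X, key, map_prod, map_pow, map_natCast]

/-- the special solution -/
noncomputable def v0 (N u : ℕ) : W N u → ℂ
  | Sum.inl _ => 0
  | Sum.inr (Sum.inl l) => ((l : ℕ) : ℂ) + 1
  | Sum.inr (Sum.inr true) => 1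
  | Sum.inr (Sum.inr false) => 0

theorem eval_dir (e : Fin u → ℕ) (F : MvPolynomial (Fin (N + 2)) ℂ) (j : ℕ) (w : W N u → ℂ)
    (hw : w (Sum.inr (Sum.inr false)) = 0) (ε : ℂ) :
    eval (v0 N u + ε • w) (Φ e F j) =
      (∏ l : Fin u, (1 + (j : ℂ) * (((l : ℕ) : ℂ) + 1)) ^ e l +
        ∑ i : Fin N, (if 2 * (i : ℕ) + 1 ≤ ∑ l, e l then
          (ε * (w (Sum.inl (Sum.inl i)) + (j : ℂ) * w (Sum.inl (Sum.inr i)))) *
            (j : ℂ) ^ (2 * (i : ℕ)) else 0)) -
      (1 + ε * w (Sum.inr (Sum.inr true))) *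
        ∏ l : Fin u, (1 + (j : ℂ) * ((((l : ℕ) : ℂ) + 1) + ε * w (Sum.inr (Sum.inl l)))) ^ e l := by
  have h1 := aeval_Φ e F j (v0 N u + ε • w)
  rw [aeval_eq_eval] at h1
  rw [h1]
  have e1 : (v0 N u + ε • w) (Sum.inr (Sum.inr false)) = 0 := by
    simp [v0, hw]
  have e2 : (v0 N u + ε • w) (Sum.inr (Sum.inr true)) = 1 + ε * w (Sum.inr (Sum.inr true)) := by
    simp [v0]
  have e3 : ∀ l, (v0 N u + ε • w) (Sum.inr (Sum.inl l)) =
      (((l : ℕ) : ℂ) + 1) + ε * w (Sum.inr (Sum.inl l)) := by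
    intro l
    simp [v0]
  rw [e1, e2, special_line]
  simp only [e3]
  have e4 : ∀ i, (v0 N u + ε • w) (Sum.inl (Sum.inl i)) +
      (j : ℂ) * (v0 N u + ε • w) (Sum.inl (Sum.inr i)) =
      ε * (w (Sum.inl (Sum.inl i)) + (j : ℂ) * w (Sum.inl (Sum.inr i))) := by
    intro i
    simp [v0]
    ring
  simp only [e4]
  simp

theorem hasDeriv_dir (e : Fin u → ℕ) (F : MvPolynomial (Fin (N + 2)) ℂ) (j : ℕ) (w : W N u → ℂ)
    (hw : w (Sum.inr (Sum.inr false)) = 0) :
    HasDerivAt (fun ε : ℂ => eval (v0 N u + ε • w) (Φ e F j))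
      ((∑ i : Fin N, (if 2 * (i : ℕ) + 1 ≤ ∑ l, e l then
        (w (Sum.inl (Sum.inl i)) + (j : ℂ) * w (Sum.inl (Sum.inr i))) * (j : ℂ) ^ (2 * (i : ℕ))
          else 0)) -
      (w (Sum.inr (Sum.inr true)) * ∏ l : Fin u, (1 + (j : ℂ) * ((l : ℕ) + 1)) ^ e l +
        ∑ l : Fin u, (∏ l' ∈ Finset.univ.erase l, (1 + (j : ℂ) * ((l' : ℕ) + 1)) ^ e l') *
          ((e l : ℂ) * (1 + (j : ℂ) * ((l : ℕ) + 1)) ^ (e l - 1) *
            ((j : ℂ) * w (Sum.inr (Sum.inl l)))))) 0 := by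
  classical
  simp only [eval_dir e F j w hw]
  refine HasDerivAt.sub ?_ ?_
  · refine HasDerivAt.const_add _ ?_
    refine HasDerivAt.fun_sum fun i _ => ?_
    split_ifs
    · have h1 := (((hasDerivAt_id (0 : ℂ)).mul_const
        (w (Sum.inl (Sum.inl i)) + (j : ℂ) * w (Sum.inl (Sum.inr i)))).mul_const
          ((j : ℂ) ^ (2 * (i : ℕ))))
      simpa using h1
    · exact hasDerivAt_const _ _
  · have h1 : HasDerivAt (fun ε : ℂ => 1 + ε * w (Sum.inr (Sum.inr true)))
        (w (Sum.inr (Sum.inr true))) 0 := by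
      simpa using ((hasDerivAt_id (0 : ℂ)).mul_const (w (Sum.inr (Sum.inr true)))).const_add 1
    have h2 : ∀ l ∈ (Finset.univ : Finset (Fin u)), HasDerivAt
        (fun ε : ℂ => (1 + (j : ℂ) * ((((l : ℕ) : ℂ) + 1) + ε * w (Sum.inr (Sum.inl l)))) ^ e l)
        ((e l : ℂ) * (1 + (j : ℂ) * ((l : ℕ) + 1)) ^ (e l - 1) *
            ((j : ℂ) * w (Sum.inr (Sum.inl l)))) 0 := by
      intro l _
      have h3 : HasDerivAt (fun ε : ℂ => 1 + (j : ℂ) * ((((l : ℕ) : ℂ) + 1) +
          ε * w (Sum.inr (Sum.inl l)))) ((j : ℂ) * w (Sum.inr (Sum.inl l))) 0 := by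
        have h4 := ((((hasDerivAt_id (0 : ℂ)).mul_const (w (Sum.inr (Sum.inl l)))).const_add
          (((l : ℕ) : ℂ) + 1)).const_mul (j : ℂ)).const_add 1
        simpa using h4
      have h5 := h3.fun_pow (e l)
      refine h5.congr_deriv ?_
      simp only [zero_mul, add_zero]
    have h6 := HasDerivAt.fun_finsetProd h2
    have h7 := h1.fun_mul h6
    refine h7.congr_deriv ?_
    simp only [zero_mul, add_zero, one_mul, smul_eq_mul]

/-- solutions exist for infinitely many values of the parameter -/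
theorem infinite_tau {e : Fin u → ℕ} (he : ∀ l, 1 ≤ e l) (hle : ∑ l, (e l - 1) ≤ 2 * N)
    (F : MvPolynomial (Fin (N + 2)) ℂ) :
    {t : ℂ | ∃ v : W N u → ℂ, (∀ j : Fin (∑ l, e l + 1), eval v (Φ e F j) = 0) ∧
      v (Sum.inr (Sum.inr false)) = t}.Infinite := by
  classical
  set D := ∑ l, e l with hD
  let G' : Fin (D + 1) → ((W N u → ℂ) →L[ℂ] ℂ) := fun j =>
    fderiv ℂ (fun v => eval v (Φ e F j)) (v0 N u)
  have hG : ∀ j : Fin (D + 1), HasStrictFDerivAt (fun v => eval v (Φ e F j)) (G' j) (v0 N u) := by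
    intro j
    have h1 : AnalyticAt ℂ (fun v : W N u → ℂ => eval v (Φ e F j)) (v0 N u) :=
      AnalyticOnNhd.eval_mvPolynomial (Φ e F j) _ (Set.mem_univ _)
    exact h1.hasStrictFDerivAt
  let f : (W N u → ℂ) → (Fin (D + 1) → ℂ) × ℂ := fun v =>
    (fun j => eval v (Φ e F j), v (Sum.inr (Sum.inr false)))
  let pr : (W N u → ℂ) →L[ℂ] ℂ := ContinuousLinearMap.proj (Sum.inr (Sum.inr false))
  have hf : HasStrictFDerivAt f ((ContinuousLinearMap.pi G').prod pr) (v0 N u) := by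
    refine HasStrictFDerivAt.prodMk ?_ pr.hasStrictFDerivAt
    exact hasStrictFDerivAt_pi.2 hG
  have hdir : ∀ (j : Fin (D + 1)) (w : W N u → ℂ), w (Sum.inr (Sum.inr false)) = 0 → G' j w =
      ((∑ i : Fin N, (if 2 * (i : ℕ) + 1 ≤ ∑ l, e l then
        (w (Sum.inl (Sum.inl i)) + (j : ℂ) * w (Sum.inl (Sum.inr i))) * (j : ℂ) ^ (2 * (i : ℕ))
          else 0)) -
      (w (Sum.inr (Sum.inr true)) * ∏ l : Fin u, (1 + (j : ℂ) * ((l : ℕ) + 1)) ^ e l +
        ∑ l : Fin u, (∏ l' ∈ Finset.univ.erase l, (1 + (j : ℂ) * ((l' : ℕ) + 1)) ^ e l') *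
          ((e l : ℂ) * (1 + (j : ℂ) * ((l : ℕ) + 1)) ^ (e l - 1) *
            ((j : ℂ) * w (Sum.inr (Sum.inl l)))))) := by
    intro j w hw
    have h1 := hasDeriv_dir e F j w hw
    have h2 : HasDerivAt (fun ε : ℂ => v0 N u + ε • w) w 0 := by
      simpa using ((hasDerivAt_id (0 : ℂ)).smul_const w).const_add (v0 N u)
    have h3 : HasFDerivAt (fun v => eval v (Φ e F j)) (G' j) (v0 N u + (0 : ℂ) • w) := by
      rw [zero_smul, add_zero]
      exact (hG j).hasFDerivAt
    have h4 := h3.comp_hasDerivAt (0 : ℂ) h2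
    exact h4.unique h1
  have hsurj0 : ∀ y : Fin (D + 1) → ℂ, ∃ w : W N u → ℂ, w (Sum.inr (Sum.inr false)) = 0 ∧
      ∀ j, G' j w = y j := by
    intro y
    have hinj : Set.InjOn (fun j : Fin (D + 1) => ((j : ℕ) : ℂ)) (Finset.univ : Finset (Fin (D + 1))) := by
      intro a _ b _ hab
      have hab' : ((a : ℕ) : ℂ) = ((b : ℕ) : ℂ) := hab
      exact Fin.ext (by exact_mod_cast hab')
    set p := Lagrange.interpolate Finset.univ (fun j : Fin (D + 1) => ((j : ℕ) : ℂ)) y with hp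
    have hpd : p.natDegree ≤ ∑ l, e l := by
      have h1 := Lagrange.degree_interpolate_lt (r := y) hinj
      rw [Finset.card_univ, Fintype.card_fin, ← hp] at h1
      have h2 := Polynomial.natDegree_lt_iff_degree_lt (p := p) (n := D + 1)
      by_cases hp0 : p = 0
      · rw [hp0]
        simp
      · have := (h2 hp0).2 h1
        omega
    have hpe : ∀ j : Fin (D + 1), p.eval ((j : ℕ) : ℂ) = y j := fun j =>
      Lagrange.eval_interpolate_at_node (r := y) hinj (Finset.mem_univ j)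
    obtain ⟨a, b, c, lam, habc⟩ := surj_poly he hle hpd
    refine ⟨fun x => match x with
      | Sum.inl (Sum.inl i) => a i
      | Sum.inl (Sum.inr i) => b i
      | Sum.inr (Sum.inl l) => c l
      | Sum.inr (Sum.inr true) => lam
      | Sum.inr (Sum.inr false) => 0, rfl, fun j => ?_⟩
    rw [hdir j _ rfl, ← hpe j, habc]
  have hrange : ((ContinuousLinearMap.pi G').prod pr).range = ⊤ := by
    rw [LinearMap.range_eq_top]
    rintro ⟨y, t⟩
    let w1 : W N u → ℂ := Pi.single (Sum.inr (Sum.inr false)) 1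
    obtain ⟨w, hw0, hw⟩ := hsurj0 (fun j => y j - t * G' j w1)
    refine ⟨w + t • w1, ?_⟩
    refine Prod.ext ?_ ?_
    · funext j
      change G' j (w + t • w1) = y j
      rw [map_add, map_smul, hw, smul_eq_mul]
      ring
    · change (w + t • w1) (Sum.inr (Sum.inr false)) = t
      simp [hw0, w1]
  have hmap := hf.map_nhds_eq_of_surj hrange
  have hf0 : f (v0 N u) = (0, 0) := by
    refine Prod.ext ?_ ?_
    · funext j
      change eval (v0 N u) (Φ e F j) = 0
      have := eval_dir e F j (0 : W N u → ℂ) rfl 0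
      rw [smul_zero, add_zero] at this
      rw [this]
      simp
    · rfl
  rw [hf0] at hmap
  have hr : Set.range f ∈ 𝓝 ((0 : Fin (D + 1) → ℂ), (0 : ℂ)) := by
    rw [← hmap]
    exact Filter.mem_map.2 (Filter.Eventually.of_forall fun v => Set.mem_range_self v)
  have hT : {t : ℂ | ∃ v : W N u → ℂ, (∀ j : Fin (D + 1), eval v (Φ e F j) = 0) ∧
      v (Sum.inr (Sum.inr false)) = t} ∈ 𝓝 (0 : ℂ) := by
    have hc : Continuous fun t : ℂ => ((0 : Fin (D + 1) → ℂ), t) := by fun_prop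
    have h1 := hc.continuousAt.preimage_mem_nhds (x := (0 : ℂ)) hr
    refine Filter.mem_of_superset h1 ?_
    rintro t ⟨v, hv⟩
    refine ⟨v, fun j => ?_, ?_⟩
    · exact congrFun (congrArg Prod.fst hv) j
    · exact congrArg Prod.snd hv
  exact infinite_of_mem_nhds (0 : ℂ) hT

end Pool.Agent.Helper568.LL
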