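import Pool.Agent.Helper568_LL.Exist

/-!
The normal form of a contact line.
-/

set_option autoImplicit false

namespace Pool.Agent.Helper568.LL

open MvPolynomial

/-- The line through the points `p` and `q` is either contained in the hypersurface `F = 0`, or `F` is
on it the product of the `(s + c l t) ^ e l`. -/
theorem Contact.normal {k : Type} [Field k] [IsAlgClosed k] {M u : ℕ} {e : Fin u → ℕ}
    {F : MvPolynomial (Fin M) k} (hF : F.IsHomogeneous (∑ l, e l)) (hpos : 0 < ∑ l, e l)
    (h : Contact e F) :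
    ∃ p q : Fin M → k, (∃ i j, p i * q j - p j * q i ≠ 0) ∧
      ((∀ s t : k, eval (fun m => s * p m + t * q m) F = 0) ∨
        ∃ c : Fin u → k, ∀ s t : k,
          eval (fun m => s * p m + t * q m) F = ∏ l, (s + c l * t) ^ e l) := by
  classical
  obtain ⟨p, q, α, β, Λ, ⟨i, j, hij⟩, hαβ, hF'⟩ := h
  by_cases hΛ : Λ = 0
  · refine ⟨p, q, ⟨i, j, hij⟩, Or.inl fun s t => ?_⟩
    rw [hF', hΛ, zero_mul]
  · have : Infinite k := IsAlgClosed.instInfinite
    obtain ⟨z, hz⟩ := exists_good α β hαβ
    set M' : k := Λ * ∏ l, (α l + β l * z) ^ e l with hM'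
    have hM0 : M' ≠ 0 := mul_ne_zero hΛ (Finset.prod_ne_zero_iff.2 fun l _ => pow_ne_zero _ (hz l))
    obtain ⟨ρ, hρ⟩ := IsAlgClosed.exists_pow_nat_eq M'⁻¹ hpos
    have hρ0 : ρ ≠ 0 := by
      rintro rfl
      rw [zero_pow (by omega)] at hρ
      exact inv_ne_zero hM0 hρ.symm
    refine ⟨fun m => ρ * (p m + z * q m), fun m => ρ * q m, ⟨i, j, ?_⟩, Or.inr
      ⟨fun l => β l / (α l + β l * z), fun s t => ?_⟩⟩
    · have : ρ * (p i + z * q i) * (ρ * q j) - ρ * (p j + z * q j) * (ρ * q i) =
          ρ ^ 2 * (p i * q j - p j * q i) := by ring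
      rw [this]
      exact mul_ne_zero (pow_ne_zero _ hρ0) hij
    · have e1 : (fun m => s * (ρ * (p m + z * q m)) + t * (ρ * q m)) =
          fun m => ρ * (s * p m + (s * z + t) * q m) := by
        funext m
        ring
      rw [e1, eval_scale hF, hF', hρ]
      have e2 : ∏ l, (α l * s + β l * (s * z + t)) ^ e l = (∏ l, (α l + β l * z) ^ e l) *
          ∏ l, (s + β l / (α l + β l * z) * t) ^ e l := by
        rw [← Finset.prod_mul_distrib]
        refine Finset.prod_congr rfl fun l _ => ?_
        rw [← mul_pow]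
        congr 1
        have := hz l
        field_simp
        ring
      rw [e2, ← mul_assoc Λ, ← hM', inv_mul_cancel_left₀ hM0]

end Pool.Agent.Helper568.LL
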