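import Pool.Agent.Helper568_LL.Defs
import Pool.Agent.Helper568_LL.Norm
import Pool.Agent.Helper568_LL.Curves

/-!
Cyclic coverings of projective spaces: entire curves and infinitely many rational points.
-/

set_option autoImplicit false

namespace Pool.Agent.Helper568.LL

open MvPolynomial

/-- a line on which `F` is, up to a perfect `k`-th power, the product of the
`(s + c i t) ^ e' i` -/
theorem line_normal {k : Type} [Field k] [IsAlgClosed k] [Algebra k ℂ] {N w r κ : ℕ}
    {e' : Fin w → ℕ} (hκ : 1 ≤ κ) (he : ∀ i, 1 ≤ e' i)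
    (hle : ∑ i, (e' i - 1) + r * (κ - 1) ≤ 2 * N) {D : ℕ} (hD : ∑ i, e' i + r * κ = D) (hD0 : 0 < D)
    {F : MvPolynomial (Fin (N + 2)) k} (hF : F.IsHomogeneous D) :
    ∃ p q : Fin (N + 2) → k, (∃ i j, p i * q j - p j * q i ≠ 0) ∧
      ((∀ s t : k, eval (fun m => s * p m + t * q m) F = 0) ∨
        ∃ (c : Fin w → k) (c' : Fin r → k), ∀ s t : k,
          eval (fun m => s * p m + t * q m) F =
            (∏ i, (s + c i * t) ^ e' i) * (∏ j, (s + c' j * t)) ^ κ) := by
  let e : Fin (w + r) → ℕ := Fin.append e' (fun _ => κ)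
  have hsum : ∑ l, e l = D := by
    rw [Fin.sum_univ_add]
    simp only [e, Fin.append_left, Fin.append_right, Finset.sum_const, Finset.card_univ,
      Fintype.card_fin, smul_eq_mul]
    exact hD
  have he1 : ∀ l, 1 ≤ e l := by
    intro l
    refine Fin.addCases (fun i => ?_) (fun i => ?_) l
    · simp only [e, Fin.append_left]
      exact he i
    · simp only [e, Fin.append_right]
      exact hκ
  have hle1 : ∑ l, (e l - 1) ≤ 2 * N := by
    rw [Fin.sum_univ_add]
    simp only [e, Fin.append_left, Fin.append_right, Finset.sum_const, Finset.card_univ,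
      Fintype.card_fin, smul_eq_mul]
    exact hle
  have hc := contact_exists he1 hle1 (F := F) (hsum ▸ hF)
  obtain ⟨p, q, hij, h⟩ := hc.normal (hsum ▸ hF) (hsum ▸ hD0)
  refine ⟨p, q, hij, ?_⟩
  rcases h with h | ⟨c, hc⟩
  · exact Or.inl h
  · refine Or.inr ⟨fun i => c (Fin.castAdd r i), fun j => c (Fin.natAdd w j), fun s t => ?_⟩
    rw [hc, Fin.prod_univ_add]
    simp only [e, Fin.append_left, Fin.append_right]
    rw [Finset.prod_pow]

theorem lin_ne {k : Type} [Field k] {M : ℕ} {p q : Fin M → k} {i j : Fin M}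
    (hij : p i * q j - p j * q i ≠ 0) {s t : k} (h : (fun m => s * p m + t * q m) = 0) :
    s = 0 ∧ t = 0 := by
  have h1 : s * p i + t * q i = 0 := congrFun h i
  have h2 : s * p j + t * q j = 0 := congrFun h j
  constructor
  · have : s * (p i * q j - p j * q i) = 0 := by linear_combination q j * h1 - q i * h2
    exact (mul_eq_zero.1 this).resolve_right hij
  · have : t * (p i * q j - p j * q i) = 0 := by linear_combination p i * h2 - p j * h1
    exact (mul_eq_zero.1 this).resolve_right hij

/-- not hyperbolic -/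
theorem not_hyp {N w r κ m : ℕ} {e' : Fin w → ℕ} (hκ : 1 ≤ κ) (he : ∀ i, 1 ≤ e' i)
    (hle : ∑ i, (e' i - 1) + r * (κ - 1) ≤ 2 * N) {D : ℕ} (hD : ∑ i, e' i + r * κ = D) (hD0 : 0 < D)
    (hAn : AnCurve κ e') {F : MvPolynomial (Fin (N + 2)) ℂ} (hF : F.IsHomogeneous D) :
    ¬ Hyperbolic m κ F := by
  intro hyp
  obtain ⟨p, q, ⟨i, j, hij⟩, h⟩ := line_normal hκ he hle hD hD0 hF
  -- a general principle
  have key : ∀ (f g y : ℂ → ℂ), Differentiable ℂ f → Differentiable ℂ g → Differentiable ℂ y →
      (∀ z, f z ≠ 0 ∨ g z ≠ 0) →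
      (∀ z, y z ^ κ = eval (fun m => f z * p m + g z * q m) F) →
      (∃ z z', f z' * g z - g z' * f z ≠ 0) → False := by
    intro f g y hf hg hy hfg hyF ⟨z, z', hne⟩
    have h1 := hyp y (fun z m => f z * p m + g z * q m) hy
      (differentiable_pi.2 fun m => (hf.mul_const _).add (hg.mul_const _)) (fun z => ⟨?_, hyF z⟩) z z'
    · obtain ⟨c, hc, -, h2⟩ := h1
      have h3 : (fun m => (f z' - c * f z) * p m + (g z' - c * g z) * q m) = 0 := by
        funext m
        have h4 := congrFun h2 m
        simp only at h4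
        simp only [Pi.zero_apply]
        linear_combination h4
      obtain ⟨h5, h6⟩ := lin_ne hij h3
      apply hne
      linear_combination g z * h5 - f z * h6
    · intro h0
      have h2 : (fun m => f z * p m + g z * q m) = 0 := h0
      obtain ⟨h3, h4⟩ := lin_ne hij h2
      rcases hfg z with h | h
      · exact h h3
      · exact h h4
  rcases h with h | ⟨c, c', h⟩
  · refine key (fun _ => 1) (fun z => z) (fun _ => 0) (by fun_prop) (by fun_prop) (by fun_prop)
      (fun z => Or.inl one_ne_zero) (fun z => ?_) ⟨0, 1, by norm_num⟩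
    rw [h, zero_pow (by omega)]
  · obtain ⟨f, g, v, hf, hg, hv, hfg, hvk, hne⟩ := hAn c
    refine key f g (fun z => v z * ∏ j, (f z + c' j * g z)) hf hg (by fun_prop) hfg
      (fun z => ?_) hne
    rw [h, mul_pow, hvk]

/-- infinitely many points -/
theorem inf_points {K : Type} [Field K] [CharZero K] (σ : K →+* ℂ) {N w r κ m : ℕ} {e' : Fin w → ℕ}
    (hκ : 1 ≤ κ) (he : ∀ i, 1 ≤ e' i)
    (hle : ∑ i, (e' i - 1) + r * (κ - 1) ≤ 2 * N) {D : ℕ} (hD : ∑ i, e' i + r * κ = D) (hD0 : 0 < D)
    (hAr : ArCurve κ e') {F : MvPolynomial (Fin (N + 2)) K} (hF : F.IsHomogeneous D) :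
    ∃ L : IntermediateField K (AlgebraicClosure K), FiniteDimensional K L ∧
      ¬ FinitelyManyPoints m κ (map (algebraMap K L) F) := by
  classical
  let kk := AlgebraicClosure K
  let _ : Algebra K ℂ := σ.toAlgebra
  let σ' : kk →ₐ[K] ℂ := IsAlgClosed.lift
  let _ : Algebra kk ℂ := (σ' : kk →+* ℂ).toAlgebra
  have hF' : (map (algebraMap K kk) F).IsHomogeneous D := hF.map _
  obtain ⟨p, q, ⟨i, j, hij⟩, h⟩ := line_normal hκ he hle hD hD0 hF'
  have hch : CharZero kk := charZero_of_injective_algebraMap (algebraMap K kk).injective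
  -- a general principle
  have key : ∀ (T : Finset kk), (∀ L : Subfield kk, (∀ x ∈ T, x ∈ L) →
      {z : kk | z ∈ L ∧ ∃ y ∈ L, y ^ κ =
        eval (fun m => z * p m + 1 * q m) (map (algebraMap K kk) F)}.Infinite) →
      ∃ L : IntermediateField K (AlgebraicClosure K), FiniteDimensional K L ∧
        ¬ FinitelyManyPoints m κ (map (algebraMap K L) F) := by
    intro T hT
    let T' : Finset kk := T ∪ Finset.univ.image p ∪ Finset.univ.image q
    let L : IntermediateField K kk := IntermediateField.adjoin K (T' : Set kk)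
    have hfd : FiniteDimensional K L :=
      IntermediateField.finiteDimensional_adjoin fun x _ => Algebra.IsIntegral.isIntegral x
    refine ⟨L, hfd, ?_⟩
    have hsub : ∀ x ∈ T', x ∈ L := fun x hx => IntermediateField.subset_adjoin K _ hx
    have hp : ∀ m, p m ∈ L := fun m => hsub _ (by simp [T'])
    have hq : ∀ m, q m ∈ L := fun m => hsub _ (by simp [T'])
    have hinf := hT L.toSubfield (fun x hx => hsub x (by simp [T', hx]))
    rintro ⟨S, hS⟩
    apply hinf
    -- the value of `z` is determined by the point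
    let g : L × (Fin (N + 2) → L) → kk := fun Q =>
      ((Q.2 i : kk) * q j - (Q.2 j : kk) * q i) / ((Q.2 j : kk) * p i - (Q.2 i : kk) * p j)
    refine (S.finite_toSet.image g).subset ?_
    rintro z ⟨hz, y, hy, hyF⟩
    let P : L × (Fin (N + 2) → L) := (⟨y, hy⟩, fun m => ⟨z, hz⟩ * ⟨p m, hp m⟩ + ⟨q m, hq m⟩)
    have hP2 : ∀ m, ((P.2 m : L) : kk) = z * p m + q m := fun m => rfl
    have hPpt : IsPt κ (map (algebraMap K L) F) P := by
      refine ⟨?_, ?_⟩
      · intro h0
        have h1 : (fun m => z * p m + 1 * q m) = 0 := by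
          funext m
          have h2 := congrArg (fun x : L => (x : kk)) (congrFun h0 m)
          simp only [hP2] at h2
          rw [one_mul]
          exact h2
        exact one_ne_zero (lin_ne hij h1).2
      · have h1 : (algebraMap L kk) (eval P.2 (map (algebraMap K L) F)) =
            eval (fun m => z * p m + 1 * q m) (map (algebraMap K kk) F) := by
          rw [MvPolynomial.map_eval, MvPolynomial.map_map]
          have h2 : (algebraMap L kk).comp (algebraMap K L) = algebraMap K kk := rfl
          rw [h2]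
          congr 1
          congr 1
          funext m
          rw [one_mul]
          rfl
        apply (algebraMap L kk).injective
        rw [h1, map_pow]
        exact hyF
    obtain ⟨Q, hQS, c, hc, -, hcQ⟩ := hS P hPpt
    refine ⟨Q, hQS, ?_⟩
    have hc' : (c : kk) ≠ 0 := by
      intro h0
      apply hc
      exact Subtype.ext h0
    have hQ : ∀ m, z * p m + q m = (c : kk) * (Q.2 m : kk) := by
      intro m
      have h2 := congrArg (fun x : L => (x : kk)) (congrFun hcQ m)
      simp only [hP2] at h2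
      exact h2
    have hQi : (Q.2 i : kk) = (z * p i + q i) / c := by
      rw [hQ i, mul_div_cancel_left₀ _ hc']
    have hQj : (Q.2 j : kk) = (z * p j + q j) / c := by
      rw [hQ j, mul_div_cancel_left₀ _ hc']
    change ((Q.2 i : kk) * q j - (Q.2 j : kk) * q i) / ((Q.2 j : kk) * p i - (Q.2 i : kk) * p j) = z
    rw [hQi, hQj]
    have e1 : (z * p i + q i) / (c : kk) * q j - (z * p j + q j) / (c : kk) * q i =
        z * ((p i * q j - p j * q i) / c) := by ring
    have e2 : (z * p j + q j) / (c : kk) * p i - (z * p i + q i) / (c : kk) * p j =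
        (p i * q j - p j * q i) / c := by ring
    rw [e1, e2, mul_div_cancel_right₀ _ (div_ne_zero hij hc')]
  rcases h with h | ⟨c, c', h⟩
  · refine key ∅ fun L _ => ?_
    refine Set.infinite_of_injective_forall_mem (f := fun n : ℕ => (n : kk)) Nat.cast_injective
      fun n => ⟨natCast_mem L n, 0, L.zero_mem, ?_⟩
    rw [h, zero_pow (by omega)]
  · obtain ⟨T, hT⟩ := hAr kk c
    refine key (T ∪ Finset.univ.image c') fun L hL => ?_
    have hc' : ∀ j, c' j ∈ L := fun j => hL _ (by simp)
    refine (hT L fun x hx => hL x (by simp [hx])).mono ?_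
    rintro z ⟨hz, v, hv, hvk⟩
    refine ⟨hz, v * ∏ j, (z + c' j), L.mul_mem hv (L.prod_mem fun j _ => L.add_mem hz (hc' j)), ?_⟩
    rw [h, mul_pow, hvk]
    simp only [mul_one]

end Pool.Agent.Helper568.LL
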